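import Mathlib

namespace Pool.Agent.Results.MP_41af23_an.Q1

open MeasureTheory

/-- The determinant whose sign is the chirotope of the points `a, b, c`. -/
noncomputable def det3 (a b c : ℂ) : ℝ :=
  Matrix.det !![1, 1, 1; a.re, b.re, c.re; a.im, b.im, c.im]

/-- The standard measure `χ_Δ dx dy` of the closed triangle `Δ` with vertices `a, b, c`. -/
noncomputable def tri (a b c : ℂ) : SignedMeasure ℂ :=
  (volume : Measure ℂ).withDensityᵥ
    ((convexHull ℝ ({a, b, c} : Set ℂ)).indicator fun _ => (1 : ℝ))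

/-- The real span of the measures of the triangles with vertices in `S`. -/
noncomputable def MS (S : Finset ℂ) : Submodule ℝ (SignedMeasure ℂ) :=
  Submodule.span ℝ {μ | ∃ a ∈ S, ∃ b ∈ S, ∃ c ∈ S, det3 a b c ≠ 0 ∧ μ = tri a b c}

/-- The cone of non-negative measures in `MS S`. -/
def Kpos (S : Finset ℂ) : Set (SignedMeasure ℂ) := {μ | μ ∈ MS S ∧ 0 ≤ μ}

/-- The faces of `K` (nonempty convex extreme subsets), ordered by inclusion. -/
abbrev Face (K : Set (SignedMeasure ℂ)) : Type :=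
  {F : Set (SignedMeasure ℂ) // F.Nonempty ∧ Convex ℝ F ∧ IsExtreme ℝ K F}

section coat

variable {α β : Type} [PartialOrder α] [PartialOrder β]

def Coat (F : α) : Prop := ∃ T, IsTop T ∧ F ⋖ T

lemma coat_map (e : α ≃o β) (F : α) (h : Coat F) : Coat (e F) := by
  obtain ⟨T, hT, hF⟩ := h
  refine ⟨e T, fun G => ?_, (apply_covBy_apply_iff e).2 hF⟩
  have := hT (e.symm G)
  simpa using e.monotone this

lemma coat_card (e : α ≃o β) : Nat.card {F : α // Coat F} = Nat.card {F : β // Coat F} := by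
  refine Nat.card_congr (Equiv.subtypeEquiv e.toEquiv fun F => ⟨coat_map e F, fun h => ?_⟩)
  have := coat_map e.symm _ h
  simpa using this

end coat

lemma card_coat {n : ℕ} (W : Submodule ℝ (SignedMeasure ℂ))
    (f : Fin n → SignedMeasure ℂ →ₗ[ℝ] ℝ) (K : Set (SignedMeasure ℂ))
    (hK : ∀ x, x ∈ K ↔ x ∈ W ∧ ∀ i, 0 ≤ f i x)
    (h1 : ∀ i, ∃ x ∈ K, 0 < f i x)
    (h2 : ∀ i j, i ≠ j → ∃ x ∈ K, f i x = 0 ∧ 0 < f j x) :
    Nat.card {F : Face K // Coat F} = n := by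
  classical
  have h0 : (0 : SignedMeasure ℂ) ∈ K := (hK 0).2 ⟨W.zero_mem, fun i => by simp⟩
  have hconv : Convex ℝ K := by
    intro x hx y hy a b ha hb _
    obtain ⟨hx1, hx2⟩ := (hK x).1 hx
    obtain ⟨hy1, hy2⟩ := (hK y).1 hy
    refine (hK _).2 ⟨W.add_mem (W.smul_mem _ hx1) (W.smul_mem _ hy1), fun i => ?_⟩
    simp only [map_add, map_smul, smul_eq_mul]
    exact add_nonneg (mul_nonneg ha (hx2 i)) (mul_nonneg hb (hy2 i))
  let T : Face K := ⟨K, ⟨0, h0⟩, hconv, IsExtreme.refl ℝ K⟩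
  have hT : IsTop T := fun G => G.2.2.2.subset
  let G : Fin n → Face K := fun i => ⟨{x | x ∈ K ∧ f i x = 0}, ⟨0, h0, by simp⟩, by
      intro x hx y hy a b ha hb hab
      refine ⟨hconv hx.1 hy.1 ha hb hab, ?_⟩
      simp [hx.2, hy.2], by
      refine ⟨fun x hx => hx.1, ?_⟩
      intro x hx y hy z hz hs
      obtain ⟨a, b, ha, hb, _, rfl⟩ := hs
      refine ⟨hx, ?_⟩
      have e := hz.2
      simp only [map_add, map_smul, smul_eq_mul] at e
      have p := ((hK x).1 hx).2 i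
      have q := ((hK y).1 hy).2 i
      have : a * f i x = 0 := by nlinarith [mul_nonneg ha.le p, mul_nonneg hb.le q]
      exact (mul_eq_zero.1 this).resolve_left ha.ne'⟩
  have hGlt : ∀ i, G i < T := by
    intro i
    refine lt_of_le_of_ne (hT _) fun h => ?_
    obtain ⟨x, hx, hp⟩ := h1 i
    have : x ∈ (G i).1 := by rw [h]; exact hx
    exact hp.ne' this.2
  have key : ∀ F : Face K, F < T → ∃ i, F ≤ G i := by
    intro F hF
    by_contra hne
    push Not at hne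
    have hy : ∀ i, ∃ y ∈ F.1, 0 < f i y := by
      intro i
      by_contra hc
      push Not at hc
      apply hne i
      intro y hy
      have hyK : y ∈ K := F.2.2.2.subset hy
      exact ⟨hyK, le_antisymm (hc y hy) (((hK y).1 hyK).2 i)⟩
    have hall : ∀ s : Finset (Fin n), ∃ y ∈ F.1, ∀ i ∈ s, 0 < f i y := by
      intro s
      induction s using Finset.induction_on with
      | empty => obtain ⟨y, hy⟩ := F.2.1; exact ⟨y, hy, by simp⟩
      | insert j s _ ih =>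
        obtain ⟨y, hyF, hys⟩ := ih
        obtain ⟨w, hwF, hw⟩ := hy j
        have hyK := ((hK y).1 (F.2.2.2.subset hyF)).2
        have hwK := ((hK w).1 (F.2.2.2.subset hwF)).2
        refine ⟨(1 / 2 : ℝ) • y + (1 / 2 : ℝ) • w,
          F.2.2.1 hyF hwF (by norm_num) (by norm_num) (by norm_num), fun i hi => ?_⟩
        simp only [map_add, map_smul, smul_eq_mul]
        rcases Finset.mem_insert.1 hi with rfl | hi
        · have := hyK i; linarith
        · have := hys i hi; have := hwK i; linarith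
    obtain ⟨y, hyF, hy⟩ := hall Finset.univ
    have hyK := (hK y).1 (F.2.2.2.subset hyF)
    apply hF.not_ge
    intro x hx
    have hxK := (hK x).1 hx
    have hev : ∀ᶠ t in nhdsWithin (0 : ℝ) (Set.Ioi 0), ∀ i, 0 < f i y + t * (f i y - f i x) := by
      rw [Filter.eventually_all]
      intro i
      have hc : Continuous fun t : ℝ => f i y + t * (f i y - f i x) := by fun_prop
      have := hc.continuousAt (x := 0) |>.eventually (lt_mem_nhds (a := 0)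
        (by simpa using hy i (Finset.mem_univ i)))
      exact this.filter_mono nhdsWithin_le_nhds
    obtain ⟨t, ht, ht0⟩ := (hev.and self_mem_nhdsWithin).exists
    have ht0 : (0 : ℝ) < t := ht0
    have hzK : y + t • (y - x) ∈ K := by
      refine (hK _).2 ⟨W.add_mem hyK.1 (W.smul_mem _ (W.sub_mem hyK.1 hxK.1)), fun i => ?_⟩
      simp only [map_add, map_smul, map_sub, smul_eq_mul]
      exact (ht i).le
    refine F.2.2.2.left_mem_of_mem_openSegment hx hzK hyF ?_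
    refine ⟨t / (1 + t), 1 / (1 + t), by positivity, by positivity, by field_simp; ring, ?_⟩
    have h1t : (1 + t) ≠ 0 := by positivity
    have e1 : (t / (1 + t)) • x + (1 / (1 + t)) • (y + t • (y - x))
        = (t / (1 + t) - 1 / (1 + t) * t) • x + (1 / (1 + t) * (1 + t)) • y := by
      module
    rw [e1, show t / (1 + t) - 1 / (1 + t) * t = 0 by ring,
      show 1 / (1 + t) * (1 + t) = 1 by field_simp]
    simp
  have hGle : ∀ i j, G i ≤ G j → i = j := by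
    intro i j h
    by_contra hij
    obtain ⟨x, hx, hi, hj⟩ := h2 i j hij
    exact hj.ne' (h (show x ∈ (G i).1 from ⟨hx, hi⟩)).2
  have hcoat : ∀ i, Coat (G i) := by
    intro i
    refine ⟨T, hT, hGlt i, fun F h1 h2 => ?_⟩
    obtain ⟨j, hj⟩ := key F h2
    have := hGle i j (h1.le.trans hj)
    subst this
    exact h1.not_ge hj
  have hb : Function.Bijective fun i : Fin n => (⟨G i, hcoat i⟩ : {F : Face K // Coat F}) := by
    constructor
    · intro i j h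
      exact hGle i j (congrArg Subtype.val h).le
    · rintro ⟨F, T', hT', hF⟩
      have : T' = T := le_antisymm (hT _) (hT' _)
      subst this
      obtain ⟨i, hi⟩ := key F hF.1
      refine ⟨i, Subtype.ext ?_⟩
      rcases hi.eq_or_lt with h | h
      · exact h.symm
      · exact absurd (hGlt i) (hF.2 h)
  rw [← Nat.card_eq_of_bijective _ hb]
  simp

def dt (a b z : ℂ) : ℝ := (b.re - a.re) * (z.im - a.im) - (b.im - a.im) * (z.re - a.re)

lemma det3_eq (a b c : ℂ) : det3 a b c = dt a b c := by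
  simp [det3, dt, Matrix.det_fin_three]; ring

lemma mem_tri_pos (a b c z : ℂ) (h : 0 < dt a b c) :
    z ∈ convexHull ℝ ({a, b, c} : Set ℂ) ↔ 0 ≤ dt a b z ∧ 0 ≤ dt b c z ∧ 0 ≤ dt c a z := by
  constructor
  · intro hz
    have hc : Convex ℝ {z : ℂ | 0 ≤ dt a b z ∧ 0 ≤ dt b c z ∧ 0 ≤ dt c a z} := by
      intro x hx y hy s t hs ht hst
      have e : ∀ p q : ℂ, dt p q (s • x + t • y) = s * dt p q x + t * dt p q y := by
        intro p q
        have : t = 1 - s := by linarith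
        subst this
        simp [dt]; ring
      simp only [Set.mem_ofPred_eq, e]
      exact ⟨add_nonneg (mul_nonneg hs hx.1) (mul_nonneg ht hy.1),
        add_nonneg (mul_nonneg hs hx.2.1) (mul_nonneg ht hy.2.1),
        add_nonneg (mul_nonneg hs hx.2.2) (mul_nonneg ht hy.2.2)⟩
    refine convexHull_min ?_ hc hz
    intro w hw
    simp only [Set.mem_insert_iff, Set.mem_singleton_iff] at hw
    unfold dt at h
    rcases hw with rfl | rfl | rfl <;> refine ⟨?_, ?_, ?_⟩ <;> unfold dt <;> nlinarith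
  · rintro ⟨h1, h2, h3⟩
    have hs : dt b c z + dt c a z + dt a b z = dt a b c := by unfold dt; ring
    have hc := convex_convexHull ℝ ({a, b, c} : Set ℂ)
    have ha : a ∈ convexHull ℝ ({a, b, c} : Set ℂ) := subset_convexHull ℝ _ (by simp)
    have hb : b ∈ convexHull ℝ ({a, b, c} : Set ℂ) := subset_convexHull ℝ _ (by simp)
    have hcc : c ∈ convexHull ℝ ({a, b, c} : Set ℂ) := subset_convexHull ℝ _ (by simp)
    have := hc.sum_mem (t := Finset.univ)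
      (w := ![dt b c z / dt a b c, dt c a z / dt a b c, dt a b z / dt a b c]) (z := ![a, b, c])
      (by intro i _; fin_cases i <;> simp <;> positivity)
      (by simp [Fin.sum_univ_three]; field_simp; linarith)
      (by intro i _; fin_cases i <;> simpa)
    convert this using 1
    simp only [Fin.sum_univ_three, Matrix.cons_val_zero, Matrix.cons_val_one, Matrix.cons_val]
    have hne := h.ne'
    apply Complex.ext <;> simp <;> field_simp <;> unfold dt <;> ring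

def InT (a b c z : ℂ) : Prop :=
  (0 < dt a b z ∧ 0 < dt b c z ∧ 0 < dt c a z) ∨ (0 < dt b a z ∧ 0 < dt c b z ∧ 0 < dt a c z)

lemma dt_swap (a b z : ℂ) : dt b a z = - dt a b z := by unfold dt; ring

lemma mem_tri (a b c z : ℂ) (h : dt a b c ≠ 0) (h1 : dt a b z ≠ 0) (h2 : dt b c z ≠ 0)
    (h3 : dt c a z ≠ 0) : z ∈ convexHull ℝ ({a, b, c} : Set ℂ) ↔ InT a b c z := by
  have hs : dt b c z + dt c a z + dt a b z = dt a b c := by unfold dt; ring
  unfold InT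
  rw [dt_swap a b, dt_swap b c, dt_swap c a]
  rcases lt_or_gt_of_ne h with h | h
  · have h' : 0 < dt a c b := by
      have : dt a c b = - dt a b c := by unfold dt; ring
      linarith
    rw [Set.pair_comm b c, mem_tri_pos a c b z h', dt_swap c a, dt_swap b c, dt_swap a b]
    constructor
    · rintro ⟨p, q, r⟩
      right
      exact ⟨lt_of_le_of_ne r (by simpa using h1), lt_of_le_of_ne q (by simpa using h2),
        lt_of_le_of_ne p (by simpa using h3)⟩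
    · rintro (⟨p, q, r⟩ | ⟨p, q, r⟩)
      · linarith
      · exact ⟨r.le, q.le, p.le⟩
  · rw [mem_tri_pos a b c z h]
    constructor
    · rintro ⟨p, q, r⟩
      left
      exact ⟨lt_of_le_of_ne p h1.symm, lt_of_le_of_ne q h2.symm, lt_of_le_of_ne r h3.symm⟩
    · rintro (⟨p, q, r⟩ | ⟨p, q, r⟩)
      · exact ⟨p.le, q.le, r.le⟩
      · linarith

lemma line_null (a b : ℂ) (h : a ≠ b) : (volume : Measure ℂ) {z | dt a b z = 0} = 0 := by
  let φ : ℂ →ₗ[ℝ] ℝ := (b.re - a.re) • Complex.imLm - (b.im - a.im) • Complex.reLm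
  have e : {z | dt a b z = 0} = (fun z => -a + z) ⁻¹' (LinearMap.ker φ : Set ℂ) := by
    ext z
    simp only [dt, φ, Set.mem_ofPred_eq, Set.mem_preimage, SetLike.mem_coe, LinearMap.mem_ker,
      LinearMap.sub_apply, LinearMap.smul_apply, Complex.imLm_coe, Complex.reLm_coe,
      Complex.add_im, Complex.add_re, Complex.neg_re, Complex.neg_im, smul_eq_mul]
    constructor <;> intro h <;> linarith
  rw [e, measure_preimage_add]
  apply Measure.addHaar_submodule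
  intro ht
  have : (Complex.I * (b - a)) ∈ LinearMap.ker φ := by rw [ht]; trivial
  simp only [φ, LinearMap.mem_ker, LinearMap.sub_apply, LinearMap.smul_apply, Complex.imLm_coe,
    Complex.reLm_coe, smul_eq_mul] at this
  simp at this
  apply h
  apply Complex.ext <;> nlinarith [sq_nonneg (b.re - a.re), sq_nonneg (b.im - a.im)]

def Cell (P : Fin 6 → ℂ) (q : ℂ) : Set ℂ :=
  {z | ∀ a b, 0 < dt (P a) (P b) q → 0 < dt (P a) (P b) z}

lemma cell_open (P : Fin 6 → ℂ) (q : ℂ) : IsOpen (Cell P q) := by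
  have : Cell P q = ⋂ a, ⋂ b, ⋂ _ : 0 < dt (P a) (P b) q, {z | 0 < dt (P a) (P b) z} := by
    ext z; simp [Cell]
  rw [this]
  refine isOpen_iInter_of_finite fun a => isOpen_iInter_of_finite fun b =>
    isOpen_iInter_of_finite fun _ => isOpen_lt continuous_const ?_
  unfold dt; fun_prop

lemma cell_iff {P : Fin 6 → ℂ} {q z : ℂ} (hq : ∀ a b, a ≠ b → dt (P a) (P b) q ≠ 0)
    (hz : z ∈ Cell P q) (a b : Fin 6) : 0 < dt (P a) (P b) z ↔ 0 < dt (P a) (P b) q := by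
  refine ⟨fun h => ?_, hz a b⟩
  by_cases hab : a = b
  · subst hab; simp [dt] at h
  · by_contra hn
    have : 0 < dt (P b) (P a) q := by
      rw [dt_swap]
      have := lt_of_le_of_ne (not_lt.1 hn) (hq a b hab)
      linarith
    have := hz b a this
    rw [dt_swap] at this
    linarith

lemma cell_off {P : Fin 6 → ℂ} {q z : ℂ} (hq : ∀ a b, a ≠ b → dt (P a) (P b) q ≠ 0)
    (hz : z ∈ Cell P q) (a b : Fin 6) (hab : a ≠ b) : dt (P a) (P b) z ≠ 0 := by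
  rcases lt_or_gt_of_ne (hq a b hab) with h | h
  · have := hz b a (by rw [dt_swap]; linarith)
    rw [dt_swap] at this
    linarith
  · exact (hz a b h).ne'

lemma cell_inT {P : Fin 6 → ℂ} {q z : ℂ} (hq : ∀ a b, a ≠ b → dt (P a) (P b) q ≠ 0)
    (hz : z ∈ Cell P q) (a b c : Fin 6) :
    InT (P a) (P b) (P c) z ↔ InT (P a) (P b) (P c) q := by
  simp only [InT, cell_iff hq hz]

lemma ne_of_dt {P : Fin 6 → ℂ} {a b c : Fin 6} (h : dt (P a) (P b) (P c) ≠ 0) :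
    a ≠ b ∧ b ≠ c ∧ c ≠ a := by
  refine ⟨?_, ?_, ?_⟩ <;> rintro rfl <;> apply h <;> unfold dt <;> ring

lemma tri_int (a b c : ℂ) : Integrable
    ((convexHull ℝ ({a, b, c} : Set ℂ)).indicator fun _ => (1 : ℝ)) (volume : Measure ℂ) := by
  have hc : IsCompact (convexHull ℝ ({a, b, c} : Set ℂ)) :=
    (Set.toFinite _).isCompact_convexHull ℝ
  exact (integrable_indicator_iff hc.measurableSet).2
    (integrableOn_const hc.measure_lt_top.ne)

theorem general {n : ℕ} (P : Fin 6 → ℂ) (q : Fin n → ℂ) (hP : Function.Injective P)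
    (hq : ∀ i a b, a ≠ b → dt (P a) (P b) (q i) ≠ 0)
    (hcov : ∀ z, (∀ a b, a ≠ b → dt (P a) (P b) z ≠ 0) → ∀ a b c, dt (P a) (P b) (P c) ≠ 0 →
      InT (P a) (P b) (P c) z → ∃ i, z ∈ Cell P (q i))
    (h1 : ∀ i, ∃ a b c, dt (P a) (P b) (P c) ≠ 0 ∧ InT (P a) (P b) (P c) (q i))
    (h2 : ∀ i j, i ≠ j → ∃ a b c, dt (P a) (P b) (P c) ≠ 0 ∧ ¬ InT (P a) (P b) (P c) (q i) ∧
      InT (P a) (P b) (P c) (q j)) :
    Nat.card {F : Face (Kpos (Finset.univ.map ⟨P, hP⟩)) // Coat F} = n := by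
  classical
  let C : Fin n → Set ℂ := fun i => Cell P (q i)
  have hCm : ∀ i, MeasurableSet (C i) := fun i => (cell_open P _).measurableSet
  have hdisj : ∀ i j z, z ∈ C i → z ∈ C j → i = j := by
    intro i j z hi hj
    by_contra hij
    obtain ⟨a, b, c, _, p, r⟩ := h2 i j hij
    exact p ((cell_inT (hq i) hi a b c).1 ((cell_inT (hq j) hj a b c).2 r))
  have hsub : ∀ i a b c, dt (P a) (P b) (P c) ≠ 0 → ∀ z ∈ C i,
      (z ∈ convexHull ℝ ({P a, P b, P c} : Set ℂ) ↔ InT (P a) (P b) (P c) (q i)) := by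
    intro i a b c h z hz
    obtain ⟨p1, p2, p3⟩ := ne_of_dt h
    rw [mem_tri _ _ _ _ h (cell_off (hq i) hz _ _ p1) (cell_off (hq i) hz _ _ p2)
      (cell_off (hq i) hz _ _ p3), cell_inT (hq i) hz]
  have hfin : ∀ i, volume (C i) ≠ ⊤ := by
    intro i
    obtain ⟨a, b, c, h, p⟩ := h1 i
    have hc : IsCompact (convexHull ℝ ({P a, P b, P c} : Set ℂ)) :=
      (Set.toFinite _).isCompact_convexHull ℝ
    exact ((measure_mono fun z hz => (hsub i a b c h z hz).2 p).trans_lt hc.measure_lt_top).ne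
  have hpos : ∀ i, 0 < volume.real (C i) := by
    intro i
    exact ENNReal.toReal_pos ((cell_open P _).measure_pos volume ⟨q i, fun _ _ h => h⟩).ne'
      (hfin i)
  have hCint : ∀ i, Integrable ((C i).indicator fun _ => (1 : ℝ)) (volume : Measure ℂ) :=
    fun i => (integrable_indicator_iff (hCm i)).2 (integrableOn_const (hfin i))
  let g : (Fin n → ℝ) → ℂ → ℝ := fun d => ∑ i, d i • (C i).indicator fun _ => (1 : ℝ)
  have hgint : ∀ d, Integrable (g d) (volume : Measure ℂ) := fun d =>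
    integrable_finsetSum' _ fun i _ => (hCint i).smul (d i)
  have hgC : ∀ d j, ∀ z ∈ C j, g d z = d j := by
    intro d j z hz
    simp only [g, Finset.sum_apply, Pi.smul_apply, smul_eq_mul]
    rw [Finset.sum_eq_single j]
    · simp [hz]
    · intro i _ hij
      have : z ∉ C i := fun hi => hij (hdisj i j z hi hz)
      simp [this]
    · simp
  have hgN : ∀ d z, (∀ j, z ∉ C j) → g d z = 0 := by
    intro d z hz
    simp [g, Finset.sum_apply, hz]
  let ν : (Fin n → ℝ) → SignedMeasure ℂ := fun d => (volume : Measure ℂ).withDensityᵥ (g d)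
  have hν : ∀ d j, ν d (C j) = d j * volume.real (C j) := by
    intro d j
    simp only [ν]
    rw [withDensityᵥ_apply (hgint d) (hCm j),
      setIntegral_congr_fun (hCm j) (g := fun _ => d j) (fun z hz => hgC d j z hz)]
    simp [mul_comm]
  have hae : ∀ᵐ z ∂(volume : Measure ℂ), ∀ a b, a ≠ b → dt (P a) (P b) z ≠ 0 := by
    simp only [ae_all_iff]
    intro a b hab
    have := line_null (P a) (P b) (fun h => hab (hP h))
    exact measure_eq_zero_iff_ae_notMem.1 this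
  have htri : ∀ a b c, dt (P a) (P b) (P c) ≠ 0 →
      tri (P a) (P b) (P c) = ν fun i => if InT (P a) (P b) (P c) (q i) then 1 else 0 := by
    intro a b c h
    refine WithDensityᵥEq.congr_ae ?_
    filter_upwards [hae] with z hz
    by_cases hc : ∃ j, z ∈ C j
    · obtain ⟨j, hj⟩ := hc
      rw [hgC _ j z hj, Set.indicator_apply, hsub j a b c h z hj]
    · push Not at hc
      rw [hgN _ z hc, Set.indicator_of_notMem]
      intro hm
      obtain ⟨p1, p2, p3⟩ := ne_of_dt h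
      rw [mem_tri _ _ _ _ h (hz _ _ p1) (hz _ _ p2) (hz _ _ p3)] at hm
      obtain ⟨i, hi⟩ := hcov z hz a b c h hm
      exact hc i hi
  have hspan : ∀ μ ∈ MS (Finset.univ.map ⟨P, hP⟩), ∃ d, μ = ν d := by
    intro μ hμ
    induction hμ using Submodule.span_induction with
    | mem x hx =>
      obtain ⟨a, ha, b, hb, c, hc, h, rfl⟩ := hx
      simp only [Finset.mem_map, Finset.mem_univ, true_and, Function.Embedding.coeFn_mk]
        at ha hb hc
      obtain ⟨a, rfl⟩ := ha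
      obtain ⟨b, rfl⟩ := hb
      obtain ⟨c, rfl⟩ := hc
      rw [det3_eq] at h
      exact ⟨_, htri a b c h⟩
    | zero =>
      refine ⟨0, ?_⟩
      have : g 0 = 0 := by simp [g]
      simp [ν, this]
    | add x y _ _ hx hy =>
      obtain ⟨d, rfl⟩ := hx
      obtain ⟨e, rfl⟩ := hy
      refine ⟨d + e, ?_⟩
      have : g (d + e) = g d + g e := by
        simp only [g, Pi.add_apply, add_smul, Finset.sum_add_distrib]
      simp only [ν, this, withDensityᵥ_add (hgint d) (hgint e)]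
    | smul r x _ hx =>
      obtain ⟨d, rfl⟩ := hx
      refine ⟨r • d, ?_⟩
      have : g (r • d) = r • g d := by
        simp only [g, Pi.smul_apply, smul_eq_mul, mul_smul, Finset.smul_sum]
      simp only [ν, this, withDensityᵥ_smul]
  have hnn : ∀ d : Fin n → ℝ, (∀ i, 0 ≤ d i) → 0 ≤ ν d := by
    intro d hd
    rw [VectorMeasure.le_iff]
    intro s hs
    simp only [ν]
    rw [withDensityᵥ_apply (hgint d) hs]
    simp only [FunLike.coe_zero, Pi.zero_apply]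
    refine setIntegral_nonneg hs fun z _ => ?_
    by_cases hc : ∃ j, z ∈ C j
    · obtain ⟨j, hj⟩ := hc
      rw [hgC _ j z hj]; exact hd j
    · push Not at hc
      rw [hgN _ z hc]
  let f : Fin n → SignedMeasure ℂ →ₗ[ℝ] ℝ := fun i =>
    { toFun := fun μ => μ (C i), map_add' := fun _ _ => rfl, map_smul' := fun _ _ => rfl }
  have hf : ∀ i μ, f i μ = μ (C i) := fun _ _ => rfl
  have htK : ∀ a b c, dt (P a) (P b) (P c) ≠ 0 →
      tri (P a) (P b) (P c) ∈ Kpos (Finset.univ.map ⟨P, hP⟩) := by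
    intro a b c h
    refine ⟨Submodule.subset_span ⟨P a, by simp, P b, by simp, P c, by simp,
      by rwa [det3_eq], rfl⟩, ?_⟩
    rw [htri a b c h]
    exact hnn _ fun i => by split_ifs <;> norm_num
  refine card_coat (MS (Finset.univ.map ⟨P, hP⟩)) f _ (fun x => ?_) (fun i => ?_)
    (fun i j hij => ?_)
  · refine ⟨fun hx => ⟨hx.1, fun i => ?_⟩, fun hx => ⟨hx.1, ?_⟩⟩
    · have := VectorMeasure.le_iff.1 hx.2 (C i) (hCm i)
      simpa [hf] using this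
    · obtain ⟨d, rfl⟩ := hspan x hx.1
      refine hnn d fun i => ?_
      have := hx.2 i
      rw [hf, hν] at this
      exact nonneg_of_mul_nonneg_left this (hpos i)
  · obtain ⟨a, b, c, h, p⟩ := h1 i
    refine ⟨_, htK a b c h, ?_⟩
    rw [hf, htri a b c h, hν]
    simpa [p] using hpos i
  · obtain ⟨a, b, c, h, p, r⟩ := h2 i j hij
    refine ⟨_, htK a b c h, ?_, ?_⟩
    · rw [hf, htri a b c h, hν]
      simp [p]
    · rw [hf, htri a b c h, hν]
      simpa [r] using hpos j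

def ptz (p : ℤ × ℤ) : ℂ := ⟨p.1, p.2⟩

def dz (a b z : ℤ × ℤ) : ℤ := (b.1 - a.1) * (z.2 - a.2) - (b.2 - a.2) * (z.1 - a.1)

lemma dt_ptz (a b c : ℤ × ℤ) : dt (ptz a) (ptz b) (ptz c) = dz a b c := by
  simp [dt, ptz, dz]

lemma ptz_inj : Function.Injective ptz := by
  intro a b h
  have h1 := congrArg Complex.re h
  have h2 := congrArg Complex.im h
  simp only [ptz, Int.cast_inj] at h1 h2
  exact Prod.ext h1 h2

lemma inT_ptz (a b c z : ℤ × ℤ) : InT (ptz a) (ptz b) (ptz c) (ptz z) ↔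
    (0 < dz a b z ∧ 0 < dz b c z ∧ 0 < dz c a z) ∨
      (0 < dz b a z ∧ 0 < dz c b z ∧ 0 < dz a c z) := by
  simp only [InT, dt_ptz, Int.cast_pos]

lemma inT_side {a b c p q z : ℂ} (h : InT a b c z) (ha : 0 ≤ dt p q a) (hb : 0 ≤ dt p q b)
    (hc : 0 ≤ dt p q c) : 0 ≤ dt p q z := by
  have e : (dt b c z + dt c a z + dt a b z) * dt p q z
      = dt b c z * dt p q a + dt c a z * dt p q b + dt a b z * dt p q c := by
    unfold dt; ring
  unfold InT at h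
  rw [dt_swap a b, dt_swap b c, dt_swap c a] at h
  by_contra hn
  push Not at hn
  rcases h with ⟨h1, h2, h3⟩ | ⟨h1, h2, h3⟩
  · nlinarith [mul_nonneg h2.le ha, mul_nonneg h3.le hb, mul_nonneg h1.le hc,
      mul_pos (add_pos (add_pos h2 h3) h1) (neg_pos.2 hn)]
  · nlinarith [mul_nonneg h2.le ha, mul_nonneg h3.le hb, mul_nonneg h1.le hc,
      mul_pos (add_pos (add_pos h2 h3) h1) (neg_pos.2 hn)]

lemma all15 {p : Fin 6 → Fin 6 → Prop} (h01 : p 0 1) (h02 : p 0 2) (h03 : p 0 3) (h04 : p 0 4) (h05 : p 0 5) (h12 : p 1 2) (h13 : p 1 3) (h14 : p 1 4) (h15 : p 1 5) (h23 : p 2 3) (h24 : p 2 4) (h25 : p 2 5) (h34 : p 3 4) (h35 : p 3 5) (h45 : p 4 5) :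
    ∀ a b, a < b → p a b := by
  intro a b h
  fin_cases a <;> fin_cases b <;> first | exact absurd h (by decide) | assumption

lemma mem_cell (P : Fin 6 → ℤ × ℤ) (q : ℤ × ℤ) (z : ℂ)
    (h : ∀ a b : Fin 6, a < b →
      (0 < dz (P a) (P b) q ∧ 0 < dt (ptz (P a)) (ptz (P b)) z) ∨
      (dz (P a) (P b) q < 0 ∧ dt (ptz (P a)) (ptz (P b)) z < 0)) :
    z ∈ Cell (fun a => ptz (P a)) (ptz q) := by
  intro a b hab
  simp only [dt_ptz, Int.cast_pos] at hab
  rcases lt_trichotomy a b with hl | rfl | hl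
  · rcases h a b hl with ⟨_, h⟩ | ⟨h, _⟩
    · exact h
    · omega
  · simp [dz] at hab
  · have e : dz (P b) (P a) q = - dz (P a) (P b) q := by unfold dz; ring
    rcases h b a hl with ⟨h, _⟩ | ⟨_, h⟩
    · omega
    · show 0 < dt (ptz (P a)) (ptz (P b)) z
      rw [dt_swap]; linarith

def PA : Fin 6 → ℤ × ℤ := ![(0, 0), (6, 0), (12, 6), (12, 12), (6, 12), (0, 6)]

def QA : Fin 24 → ℤ × ℤ := ![(1, 3), (2, 3), (2, 5), (3, 1), (3, 2), (3, 4), (3, 7), (3, 8), (4, 3), (4, 7), (5, 2), (5, 9), (7, 3), (7, 4), (7, 8), (7, 10), (8, 3), (8, 7), (8, 11), (9, 5), (9, 10), (10, 7), (10, 9), (11, 8)]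

lemma covA (z : ℂ) (hz : ∀ a b, a ≠ b → dt (ptz (PA a)) (ptz (PA b)) z ≠ 0) (a b c : Fin 6)
    (h : InT (ptz (PA a)) (ptz (PA b)) (ptz (PA c)) z) :
    ∃ i, z ∈ Cell (fun a => ptz (PA a)) (ptz (QA i)) := by
  have side : ∀ p q : Fin 6, p ≠ q → (∀ r, 0 ≤ dz (PA p) (PA q) (PA r)) →
      0 < dt (ptz (PA p)) (ptz (PA q)) z := fun p q hpq hr =>
    lt_of_le_of_ne (inT_side h (by rw [dt_ptz]; exact_mod_cast hr a)
      (by rw [dt_ptz]; exact_mod_cast hr b) (by rw [dt_ptz]; exact_mod_cast hr c)) (hz p q hpq).symm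
  have h01 := side 0 1 (by decide) (by decide)
  have h12 := side 1 2 (by decide) (by decide)
  have h23 := side 2 3 (by decide) (by decide)
  have h34 := side 3 4 (by decide) (by decide)
  have h45 := side 4 5 (by decide) (by decide)
  have h05 : dt (ptz (PA 0)) (ptz (PA 5)) z < 0 := by
    have := side 5 0 (by decide) (by decide)
    rw [dt_swap]; linarith
  have e01 : dt (ptz (PA 0)) (ptz (PA 1)) z = (0) * z.re + (6) * z.im + (0) := by
    have e1 : PA 0 = (0, 0) := rfl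
    have e2 : PA 1 = (6, 0) := rfl
    rw [e1, e2]; simp only [dt, ptz]; push_cast; ring
  have e02 : dt (ptz (PA 0)) (ptz (PA 2)) z = (-6) * z.re + (12) * z.im + (0) := by
    have e1 : PA 0 = (0, 0) := rfl
    have e2 : PA 2 = (12, 6) := rfl
    rw [e1, e2]; simp only [dt, ptz]; push_cast; ring
  have e03 : dt (ptz (PA 0)) (ptz (PA 3)) z = (-12) * z.re + (12) * z.im + (0) := by
    have e1 : PA 0 = (0, 0) := rfl
    have e2 : PA 3 = (12, 12) := rfl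
    rw [e1, e2]; simp only [dt, ptz]; push_cast; ring
  have e04 : dt (ptz (PA 0)) (ptz (PA 4)) z = (-12) * z.re + (6) * z.im + (0) := by
    have e1 : PA 0 = (0, 0) := rfl
    have e2 : PA 4 = (6, 12) := rfl
    rw [e1, e2]; simp only [dt, ptz]; push_cast; ring
  have e05 : dt (ptz (PA 0)) (ptz (PA 5)) z = (-6) * z.re + (0) * z.im + (0) := by
    have e1 : PA 0 = (0, 0) := rfl
    have e2 : PA 5 = (0, 6) := rfl
    rw [e1, e2]; simp only [dt, ptz]; push_cast; ring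
  have e12 : dt (ptz (PA 1)) (ptz (PA 2)) z = (-6) * z.re + (6) * z.im + (36) := by
    have e1 : PA 1 = (6, 0) := rfl
    have e2 : PA 2 = (12, 6) := rfl
    rw [e1, e2]; simp only [dt, ptz]; push_cast; ring
  have e13 : dt (ptz (PA 1)) (ptz (PA 3)) z = (-12) * z.re + (6) * z.im + (72) := by
    have e1 : PA 1 = (6, 0) := rfl
    have e2 : PA 3 = (12, 12) := rfl
    rw [e1, e2]; simp only [dt, ptz]; push_cast; ring
  have e14 : dt (ptz (PA 1)) (ptz (PA 4)) z = (-12) * z.re + (0) * z.im + (72) := by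
    have e1 : PA 1 = (6, 0) := rfl
    have e2 : PA 4 = (6, 12) := rfl
    rw [e1, e2]; simp only [dt, ptz]; push_cast; ring
  have e15 : dt (ptz (PA 1)) (ptz (PA 5)) z = (-6) * z.re + (-6) * z.im + (36) := by
    have e1 : PA 1 = (6, 0) := rfl
    have e2 : PA 5 = (0, 6) := rfl
    rw [e1, e2]; simp only [dt, ptz]; push_cast; ring
  have e23 : dt (ptz (PA 2)) (ptz (PA 3)) z = (-6) * z.re + (0) * z.im + (72) := by
    have e1 : PA 2 = (12, 6) := rfl
    have e2 : PA 3 = (12, 12) := rfl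
    rw [e1, e2]; simp only [dt, ptz]; push_cast; ring
  have e24 : dt (ptz (PA 2)) (ptz (PA 4)) z = (-6) * z.re + (-6) * z.im + (108) := by
    have e1 : PA 2 = (12, 6) := rfl
    have e2 : PA 4 = (6, 12) := rfl
    rw [e1, e2]; simp only [dt, ptz]; push_cast; ring
  have e25 : dt (ptz (PA 2)) (ptz (PA 5)) z = (0) * z.re + (-12) * z.im + (72) := by
    have e1 : PA 2 = (12, 6) := rfl
    have e2 : PA 5 = (0, 6) := rfl
    rw [e1, e2]; simp only [dt, ptz]; push_cast; ring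
  have e34 : dt (ptz (PA 3)) (ptz (PA 4)) z = (0) * z.re + (-6) * z.im + (72) := by
    have e1 : PA 3 = (12, 12) := rfl
    have e2 : PA 4 = (6, 12) := rfl
    rw [e1, e2]; simp only [dt, ptz]; push_cast; ring
  have e35 : dt (ptz (PA 3)) (ptz (PA 5)) z = (6) * z.re + (-12) * z.im + (72) := by
    have e1 : PA 3 = (12, 12) := rfl
    have e2 : PA 5 = (0, 6) := rfl
    rw [e1, e2]; simp only [dt, ptz]; push_cast; ring
  have e45 : dt (ptz (PA 4)) (ptz (PA 5)) z = (6) * z.re + (-6) * z.im + (36) := by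
    have e1 : PA 4 = (6, 12) := rfl
    have e2 : PA 5 = (0, 6) := rfl
    rw [e1, e2]; simp only [dt, ptz]; push_cast; ring
  clear side h
  rcases lt_or_gt_of_ne (hz 0 3 (by decide)) with h03 | h03
  · skip
    have h04 : dt (ptz (PA 0)) (ptz (PA 4)) z < 0 := lt_of_le_of_ne (by linarith) (hz 0 4 (by decide))
    have h35 : 0 < dt (ptz (PA 3)) (ptz (PA 5)) z := lt_of_le_of_ne (by linarith) (hz 3 5 (by decide)).symm
    rcases lt_or_gt_of_ne (hz 0 2 (by decide)) with h02 | h02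
    · skip
      have h24 : 0 < dt (ptz (PA 2)) (ptz (PA 4)) z := lt_of_le_of_ne (by linarith) (hz 2 4 (by decide)).symm
      have h25 : 0 < dt (ptz (PA 2)) (ptz (PA 5)) z := lt_of_le_of_ne (by linarith) (hz 2 5 (by decide)).symm
      rcases lt_or_gt_of_ne (hz 1 4 (by decide)) with h14 | h14
      · skip
        have h15 : dt (ptz (PA 1)) (ptz (PA 5)) z < 0 := lt_of_le_of_ne (by linarith) (hz 1 5 (by decide))
        rcases lt_or_gt_of_ne (hz 1 3 (by decide)) with h13 | h13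
        · skip
          exact ⟨16, mem_cell _ _ _ (all15 (Or.inl ⟨by decide, h01⟩) (Or.inr ⟨by decide, h02⟩) (Or.inr ⟨by decide, h03⟩) (Or.inr ⟨by decide, h04⟩) (Or.inr ⟨by decide, h05⟩) (Or.inl ⟨by decide, h12⟩) (Or.inr ⟨by decide, h13⟩) (Or.inr ⟨by decide, h14⟩) (Or.inr ⟨by decide, h15⟩) (Or.inl ⟨by decide, h23⟩) (Or.inl ⟨by decide, h24⟩) (Or.inl ⟨by decide, h25⟩) (Or.inl ⟨by decide, h34⟩) (Or.inl ⟨by decide, h35⟩) (Or.inl ⟨by decide, h45⟩))⟩
        · skip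
          exact ⟨12, mem_cell _ _ _ (all15 (Or.inl ⟨by decide, h01⟩) (Or.inr ⟨by decide, h02⟩) (Or.inr ⟨by decide, h03⟩) (Or.inr ⟨by decide, h04⟩) (Or.inr ⟨by decide, h05⟩) (Or.inl ⟨by decide, h12⟩) (Or.inl ⟨by decide, h13⟩) (Or.inr ⟨by decide, h14⟩) (Or.inr ⟨by decide, h15⟩) (Or.inl ⟨by decide, h23⟩) (Or.inl ⟨by decide, h24⟩) (Or.inl ⟨by decide, h25⟩) (Or.inl ⟨by decide, h34⟩) (Or.inl ⟨by decide, h35⟩) (Or.inl ⟨by decide, h45⟩))⟩
      · skip
        have h13 : 0 < dt (ptz (PA 1)) (ptz (PA 3)) z := lt_of_le_of_ne (by linarith) (hz 1 3 (by decide)).symm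
        rcases lt_or_gt_of_ne (hz 1 5 (by decide)) with h15 | h15
        · skip
          exact ⟨10, mem_cell _ _ _ (all15 (Or.inl ⟨by decide, h01⟩) (Or.inr ⟨by decide, h02⟩) (Or.inr ⟨by decide, h03⟩) (Or.inr ⟨by decide, h04⟩) (Or.inr ⟨by decide, h05⟩) (Or.inl ⟨by decide, h12⟩) (Or.inl ⟨by decide, h13⟩) (Or.inl ⟨by decide, h14⟩) (Or.inr ⟨by decide, h15⟩) (Or.inl ⟨by decide, h23⟩) (Or.inl ⟨by decide, h24⟩) (Or.inl ⟨by decide, h25⟩) (Or.inl ⟨by decide, h34⟩) (Or.inl ⟨by decide, h35⟩) (Or.inl ⟨by decide, h45⟩))⟩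
        · skip
          exact ⟨3, mem_cell _ _ _ (all15 (Or.inl ⟨by decide, h01⟩) (Or.inr ⟨by decide, h02⟩) (Or.inr ⟨by decide, h03⟩) (Or.inr ⟨by decide, h04⟩) (Or.inr ⟨by decide, h05⟩) (Or.inl ⟨by decide, h12⟩) (Or.inl ⟨by decide, h13⟩) (Or.inl ⟨by decide, h14⟩) (Or.inl ⟨by decide, h15⟩) (Or.inl ⟨by decide, h23⟩) (Or.inl ⟨by decide, h24⟩) (Or.inl ⟨by decide, h25⟩) (Or.inl ⟨by decide, h34⟩) (Or.inl ⟨by decide, h35⟩) (Or.inl ⟨by decide, h45⟩))⟩
    · skip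
      rcases lt_or_gt_of_ne (hz 2 5 (by decide)) with h25 | h25
      · skip
        have h14 : dt (ptz (PA 1)) (ptz (PA 4)) z < 0 := lt_of_le_of_ne (by linarith) (hz 1 4 (by decide))
        have h15 : dt (ptz (PA 1)) (ptz (PA 5)) z < 0 := lt_of_le_of_ne (by linarith) (hz 1 5 (by decide))
        rcases lt_or_gt_of_ne (hz 1 3 (by decide)) with h13 | h13
        · skip
          rcases lt_or_gt_of_ne (hz 2 4 (by decide)) with h24 | h24
          · skip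
            exact ⟨23, mem_cell _ _ _ (all15 (Or.inl ⟨by decide, h01⟩) (Or.inl ⟨by decide, h02⟩) (Or.inr ⟨by decide, h03⟩) (Or.inr ⟨by decide, h04⟩) (Or.inr ⟨by decide, h05⟩) (Or.inl ⟨by decide, h12⟩) (Or.inr ⟨by decide, h13⟩) (Or.inr ⟨by decide, h14⟩) (Or.inr ⟨by decide, h15⟩) (Or.inl ⟨by decide, h23⟩) (Or.inr ⟨by decide, h24⟩) (Or.inr ⟨by decide, h25⟩) (Or.inl ⟨by decide, h34⟩) (Or.inl ⟨by decide, h35⟩) (Or.inl ⟨by decide, h45⟩))⟩
          · skip
            exact ⟨21, mem_cell _ _ _ (all15 (Or.inl ⟨by decide, h01⟩) (Or.inl ⟨by decide, h02⟩) (Or.inr ⟨by decide, h03⟩) (Or.inr ⟨by decide, h04⟩) (Or.inr ⟨by decide, h05⟩) (Or.inl ⟨by decide, h12⟩) (Or.inr ⟨by decide, h13⟩) (Or.inr ⟨by decide, h14⟩) (Or.inr ⟨by decide, h15⟩) (Or.inl ⟨by decide, h23⟩) (Or.inl ⟨by decide, h24⟩) (Or.inr ⟨by decide, h25⟩) (Or.inl ⟨by decide, h34⟩) (Or.inl ⟨by decide, h35⟩) (Or.inl ⟨by decide, h45⟩))⟩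
        · skip
          rcases lt_or_gt_of_ne (hz 2 4 (by decide)) with h24 | h24
          · skip
            exact ⟨22, mem_cell _ _ _ (all15 (Or.inl ⟨by decide, h01⟩) (Or.inl ⟨by decide, h02⟩) (Or.inr ⟨by decide, h03⟩) (Or.inr ⟨by decide, h04⟩) (Or.inr ⟨by decide, h05⟩) (Or.inl ⟨by decide, h12⟩) (Or.inl ⟨by decide, h13⟩) (Or.inr ⟨by decide, h14⟩) (Or.inr ⟨by decide, h15⟩) (Or.inl ⟨by decide, h23⟩) (Or.inr ⟨by decide, h24⟩) (Or.inr ⟨by decide, h25⟩) (Or.inl ⟨by decide, h34⟩) (Or.inl ⟨by decide, h35⟩) (Or.inl ⟨by decide, h45⟩))⟩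
          · skip
            exact ⟨17, mem_cell _ _ _ (all15 (Or.inl ⟨by decide, h01⟩) (Or.inl ⟨by decide, h02⟩) (Or.inr ⟨by decide, h03⟩) (Or.inr ⟨by decide, h04⟩) (Or.inr ⟨by decide, h05⟩) (Or.inl ⟨by decide, h12⟩) (Or.inl ⟨by decide, h13⟩) (Or.inr ⟨by decide, h14⟩) (Or.inr ⟨by decide, h15⟩) (Or.inl ⟨by decide, h23⟩) (Or.inl ⟨by decide, h24⟩) (Or.inr ⟨by decide, h25⟩) (Or.inl ⟨by decide, h34⟩) (Or.inl ⟨by decide, h35⟩) (Or.inl ⟨by decide, h45⟩))⟩
      · skip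
        have h24 : 0 < dt (ptz (PA 2)) (ptz (PA 4)) z := lt_of_le_of_ne (by linarith) (hz 2 4 (by decide)).symm
        rcases lt_or_gt_of_ne (hz 1 4 (by decide)) with h14 | h14
        · skip
          have h15 : dt (ptz (PA 1)) (ptz (PA 5)) z < 0 := lt_of_le_of_ne (by linarith) (hz 1 5 (by decide))
          rcases lt_or_gt_of_ne (hz 1 3 (by decide)) with h13 | h13
          · skip
            exact ⟨19, mem_cell _ _ _ (all15 (Or.inl ⟨by decide, h01⟩) (Or.inl ⟨by decide, h02⟩) (Or.inr ⟨by decide, h03⟩) (Or.inr ⟨by decide, h04⟩) (Or.inr ⟨by decide, h05⟩) (Or.inl ⟨by decide, h12⟩) (Or.inr ⟨by decide, h13⟩) (Or.inr ⟨by decide, h14⟩) (Or.inr ⟨by decide, h15⟩) (Or.inl ⟨by decide, h23⟩) (Or.inl ⟨by decide, h24⟩) (Or.inl ⟨by decide, h25⟩) (Or.inl ⟨by decide, h34⟩) (Or.inl ⟨by decide, h35⟩) (Or.inl ⟨by decide, h45⟩))⟩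
          · skip
            exact ⟨13, mem_cell _ _ _ (all15 (Or.inl ⟨by decide, h01⟩) (Or.inl ⟨by decide, h02⟩) (Or.inr ⟨by decide, h03⟩) (Or.inr ⟨by decide, h04⟩) (Or.inr ⟨by decide, h05⟩) (Or.inl ⟨by decide, h12⟩) (Or.inl ⟨by decide, h13⟩) (Or.inr ⟨by decide, h14⟩) (Or.inr ⟨by decide, h15⟩) (Or.inl ⟨by decide, h23⟩) (Or.inl ⟨by decide, h24⟩) (Or.inl ⟨by decide, h25⟩) (Or.inl ⟨by decide, h34⟩) (Or.inl ⟨by decide, h35⟩) (Or.inl ⟨by decide, h45⟩))⟩
        · skip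
          have h13 : 0 < dt (ptz (PA 1)) (ptz (PA 3)) z := lt_of_le_of_ne (by linarith) (hz 1 3 (by decide)).symm
          rcases lt_or_gt_of_ne (hz 1 5 (by decide)) with h15 | h15
          · skip
            exact ⟨8, mem_cell _ _ _ (all15 (Or.inl ⟨by decide, h01⟩) (Or.inl ⟨by decide, h02⟩) (Or.inr ⟨by decide, h03⟩) (Or.inr ⟨by decide, h04⟩) (Or.inr ⟨by decide, h05⟩) (Or.inl ⟨by decide, h12⟩) (Or.inl ⟨by decide, h13⟩) (Or.inl ⟨by decide, h14⟩) (Or.inr ⟨by decide, h15⟩) (Or.inl ⟨by decide, h23⟩) (Or.inl ⟨by decide, h24⟩) (Or.inl ⟨by decide, h25⟩) (Or.inl ⟨by decide, h34⟩) (Or.inl ⟨by decide, h35⟩) (Or.inl ⟨by decide, h45⟩))⟩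
          · skip
            exact ⟨4, mem_cell _ _ _ (all15 (Or.inl ⟨by decide, h01⟩) (Or.inl ⟨by decide, h02⟩) (Or.inr ⟨by decide, h03⟩) (Or.inr ⟨by decide, h04⟩) (Or.inr ⟨by decide, h05⟩) (Or.inl ⟨by decide, h12⟩) (Or.inl ⟨by decide, h13⟩) (Or.inl ⟨by decide, h14⟩) (Or.inl ⟨by decide, h15⟩) (Or.inl ⟨by decide, h23⟩) (Or.inl ⟨by decide, h24⟩) (Or.inl ⟨by decide, h25⟩) (Or.inl ⟨by decide, h34⟩) (Or.inl ⟨by decide, h35⟩) (Or.inl ⟨by decide, h45⟩))⟩
  · skip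
    have h02 : 0 < dt (ptz (PA 0)) (ptz (PA 2)) z := lt_of_le_of_ne (by linarith) (hz 0 2 (by decide)).symm
    have h13 : 0 < dt (ptz (PA 1)) (ptz (PA 3)) z := lt_of_le_of_ne (by linarith) (hz 1 3 (by decide)).symm
    rcases lt_or_gt_of_ne (hz 0 4 (by decide)) with h04 | h04
    · skip
      rcases lt_or_gt_of_ne (hz 1 4 (by decide)) with h14 | h14
      · skip
        have h15 : dt (ptz (PA 1)) (ptz (PA 5)) z < 0 := lt_of_le_of_ne (by linarith) (hz 1 5 (by decide))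
        have h25 : dt (ptz (PA 2)) (ptz (PA 5)) z < 0 := lt_of_le_of_ne (by linarith) (hz 2 5 (by decide))
        rcases lt_or_gt_of_ne (hz 2 4 (by decide)) with h24 | h24
        · skip
          rcases lt_or_gt_of_ne (hz 3 5 (by decide)) with h35 | h35
          · skip
            exact ⟨18, mem_cell _ _ _ (all15 (Or.inl ⟨by decide, h01⟩) (Or.inl ⟨by decide, h02⟩) (Or.inl ⟨by decide, h03⟩) (Or.inr ⟨by decide, h04⟩) (Or.inr ⟨by decide, h05⟩) (Or.inl ⟨by decide, h12⟩) (Or.inl ⟨by decide, h13⟩) (Or.inr ⟨by decide, h14⟩) (Or.inr ⟨by decide, h15⟩) (Or.inl ⟨by decide, h23⟩) (Or.inr ⟨by decide, h24⟩) (Or.inr ⟨by decide, h25⟩) (Or.inl ⟨by decide, h34⟩) (Or.inr ⟨by decide, h35⟩) (Or.inl ⟨by decide, h45⟩))⟩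
          · skip
            exact ⟨20, mem_cell _ _ _ (all15 (Or.inl ⟨by decide, h01⟩) (Or.inl ⟨by decide, h02⟩) (Or.inl ⟨by decide, h03⟩) (Or.inr ⟨by decide, h04⟩) (Or.inr ⟨by decide, h05⟩) (Or.inl ⟨by decide, h12⟩) (Or.inl ⟨by decide, h13⟩) (Or.inr ⟨by decide, h14⟩) (Or.inr ⟨by decide, h15⟩) (Or.inl ⟨by decide, h23⟩) (Or.inr ⟨by decide, h24⟩) (Or.inr ⟨by decide, h25⟩) (Or.inl ⟨by decide, h34⟩) (Or.inl ⟨by decide, h35⟩) (Or.inl ⟨by decide, h45⟩))⟩
        · skip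
          rcases lt_or_gt_of_ne (hz 3 5 (by decide)) with h35 | h35
          · skip
            exact ⟨15, mem_cell _ _ _ (all15 (Or.inl ⟨by decide, h01⟩) (Or.inl ⟨by decide, h02⟩) (Or.inl ⟨by decide, h03⟩) (Or.inr ⟨by decide, h04⟩) (Or.inr ⟨by decide, h05⟩) (Or.inl ⟨by decide, h12⟩) (Or.inl ⟨by decide, h13⟩) (Or.inr ⟨by decide, h14⟩) (Or.inr ⟨by decide, h15⟩) (Or.inl ⟨by decide, h23⟩) (Or.inl ⟨by decide, h24⟩) (Or.inr ⟨by decide, h25⟩) (Or.inl ⟨by decide, h34⟩) (Or.inr ⟨by decide, h35⟩) (Or.inl ⟨by decide, h45⟩))⟩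
          · skip
            exact ⟨14, mem_cell _ _ _ (all15 (Or.inl ⟨by decide, h01⟩) (Or.inl ⟨by decide, h02⟩) (Or.inl ⟨by decide, h03⟩) (Or.inr ⟨by decide, h04⟩) (Or.inr ⟨by decide, h05⟩) (Or.inl ⟨by decide, h12⟩) (Or.inl ⟨by decide, h13⟩) (Or.inr ⟨by decide, h14⟩) (Or.inr ⟨by decide, h15⟩) (Or.inl ⟨by decide, h23⟩) (Or.inl ⟨by decide, h24⟩) (Or.inr ⟨by decide, h25⟩) (Or.inl ⟨by decide, h34⟩) (Or.inl ⟨by decide, h35⟩) (Or.inl ⟨by decide, h45⟩))⟩
      · skip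
        have h24 : 0 < dt (ptz (PA 2)) (ptz (PA 4)) z := lt_of_le_of_ne (by linarith) (hz 2 4 (by decide)).symm
        rcases lt_or_gt_of_ne (hz 2 5 (by decide)) with h25 | h25
        · skip
          have h15 : dt (ptz (PA 1)) (ptz (PA 5)) z < 0 := lt_of_le_of_ne (by linarith) (hz 1 5 (by decide))
          rcases lt_or_gt_of_ne (hz 3 5 (by decide)) with h35 | h35
          · skip
            exact ⟨11, mem_cell _ _ _ (all15 (Or.inl ⟨by decide, h01⟩) (Or.inl ⟨by decide, h02⟩) (Or.inl ⟨by decide, h03⟩) (Or.inr ⟨by decide, h04⟩) (Or.inr ⟨by decide, h05⟩) (Or.inl ⟨by decide, h12⟩) (Or.inl ⟨by decide, h13⟩) (Or.inl ⟨by decide, h14⟩) (Or.inr ⟨by decide, h15⟩) (Or.inl ⟨by decide, h23⟩) (Or.inl ⟨by decide, h24⟩) (Or.inr ⟨by decide, h25⟩) (Or.inl ⟨by decide, h34⟩) (Or.inr ⟨by decide, h35⟩) (Or.inl ⟨by decide, h45⟩))⟩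
          · skip
            exact ⟨9, mem_cell _ _ _ (all15 (Or.inl ⟨by decide, h01⟩) (Or.inl ⟨by decide, h02⟩) (Or.inl ⟨by decide, h03⟩) (Or.inr ⟨by decide, h04⟩) (Or.inr ⟨by decide, h05⟩) (Or.inl ⟨by decide, h12⟩) (Or.inl ⟨by decide, h13⟩) (Or.inl ⟨by decide, h14⟩) (Or.inr ⟨by decide, h15⟩) (Or.inl ⟨by decide, h23⟩) (Or.inl ⟨by decide, h24⟩) (Or.inr ⟨by decide, h25⟩) (Or.inl ⟨by decide, h34⟩) (Or.inl ⟨by decide, h35⟩) (Or.inl ⟨by decide, h45⟩))⟩
        · skip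
          have h35 : 0 < dt (ptz (PA 3)) (ptz (PA 5)) z := lt_of_le_of_ne (by linarith) (hz 3 5 (by decide)).symm
          rcases lt_or_gt_of_ne (hz 1 5 (by decide)) with h15 | h15
          · skip
            exact ⟨5, mem_cell _ _ _ (all15 (Or.inl ⟨by decide, h01⟩) (Or.inl ⟨by decide, h02⟩) (Or.inl ⟨by decide, h03⟩) (Or.inr ⟨by decide, h04⟩) (Or.inr ⟨by decide, h05⟩) (Or.inl ⟨by decide, h12⟩) (Or.inl ⟨by decide, h13⟩) (Or.inl ⟨by decide, h14⟩) (Or.inr ⟨by decide, h15⟩) (Or.inl ⟨by decide, h23⟩) (Or.inl ⟨by decide, h24⟩) (Or.inl ⟨by decide, h25⟩) (Or.inl ⟨by decide, h34⟩) (Or.inl ⟨by decide, h35⟩) (Or.inl ⟨by decide, h45⟩))⟩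
          · skip
            exact ⟨1, mem_cell _ _ _ (all15 (Or.inl ⟨by decide, h01⟩) (Or.inl ⟨by decide, h02⟩) (Or.inl ⟨by decide, h03⟩) (Or.inr ⟨by decide, h04⟩) (Or.inr ⟨by decide, h05⟩) (Or.inl ⟨by decide, h12⟩) (Or.inl ⟨by decide, h13⟩) (Or.inl ⟨by decide, h14⟩) (Or.inl ⟨by decide, h15⟩) (Or.inl ⟨by decide, h23⟩) (Or.inl ⟨by decide, h24⟩) (Or.inl ⟨by decide, h25⟩) (Or.inl ⟨by decide, h34⟩) (Or.inl ⟨by decide, h35⟩) (Or.inl ⟨by decide, h45⟩))⟩
    · skip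
      have h14 : 0 < dt (ptz (PA 1)) (ptz (PA 4)) z := lt_of_le_of_ne (by linarith) (hz 1 4 (by decide)).symm
      have h24 : 0 < dt (ptz (PA 2)) (ptz (PA 4)) z := lt_of_le_of_ne (by linarith) (hz 2 4 (by decide)).symm
      rcases lt_or_gt_of_ne (hz 2 5 (by decide)) with h25 | h25
      · skip
        have h15 : dt (ptz (PA 1)) (ptz (PA 5)) z < 0 := lt_of_le_of_ne (by linarith) (hz 1 5 (by decide))
        rcases lt_or_gt_of_ne (hz 3 5 (by decide)) with h35 | h35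
        · skip
          exact ⟨7, mem_cell _ _ _ (all15 (Or.inl ⟨by decide, h01⟩) (Or.inl ⟨by decide, h02⟩) (Or.inl ⟨by decide, h03⟩) (Or.inl ⟨by decide, h04⟩) (Or.inr ⟨by decide, h05⟩) (Or.inl ⟨by decide, h12⟩) (Or.inl ⟨by decide, h13⟩) (Or.inl ⟨by decide, h14⟩) (Or.inr ⟨by decide, h15⟩) (Or.inl ⟨by decide, h23⟩) (Or.inl ⟨by decide, h24⟩) (Or.inr ⟨by decide, h25⟩) (Or.inl ⟨by decide, h34⟩) (Or.inr ⟨by decide, h35⟩) (Or.inl ⟨by decide, h45⟩))⟩
        · skip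
          exact ⟨6, mem_cell _ _ _ (all15 (Or.inl ⟨by decide, h01⟩) (Or.inl ⟨by decide, h02⟩) (Or.inl ⟨by decide, h03⟩) (Or.inl ⟨by decide, h04⟩) (Or.inr ⟨by decide, h05⟩) (Or.inl ⟨by decide, h12⟩) (Or.inl ⟨by decide, h13⟩) (Or.inl ⟨by decide, h14⟩) (Or.inr ⟨by decide, h15⟩) (Or.inl ⟨by decide, h23⟩) (Or.inl ⟨by decide, h24⟩) (Or.inr ⟨by decide, h25⟩) (Or.inl ⟨by decide, h34⟩) (Or.inl ⟨by decide, h35⟩) (Or.inl ⟨by decide, h45⟩))⟩
      · skip
        have h35 : 0 < dt (ptz (PA 3)) (ptz (PA 5)) z := lt_of_le_of_ne (by linarith) (hz 3 5 (by decide)).symm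
        rcases lt_or_gt_of_ne (hz 1 5 (by decide)) with h15 | h15
        · skip
          exact ⟨2, mem_cell _ _ _ (all15 (Or.inl ⟨by decide, h01⟩) (Or.inl ⟨by decide, h02⟩) (Or.inl ⟨by decide, h03⟩) (Or.inl ⟨by decide, h04⟩) (Or.inr ⟨by decide, h05⟩) (Or.inl ⟨by decide, h12⟩) (Or.inl ⟨by decide, h13⟩) (Or.inl ⟨by decide, h14⟩) (Or.inr ⟨by decide, h15⟩) (Or.inl ⟨by decide, h23⟩) (Or.inl ⟨by decide, h24⟩) (Or.inl ⟨by decide, h25⟩) (Or.inl ⟨by decide, h34⟩) (Or.inl ⟨by decide, h35⟩) (Or.inl ⟨by decide, h45⟩))⟩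
        · skip
          exact ⟨0, mem_cell _ _ _ (all15 (Or.inl ⟨by decide, h01⟩) (Or.inl ⟨by decide, h02⟩) (Or.inl ⟨by decide, h03⟩) (Or.inl ⟨by decide, h04⟩) (Or.inr ⟨by decide, h05⟩) (Or.inl ⟨by decide, h12⟩) (Or.inl ⟨by decide, h13⟩) (Or.inl ⟨by decide, h14⟩) (Or.inl ⟨by decide, h15⟩) (Or.inl ⟨by decide, h23⟩) (Or.inl ⟨by decide, h24⟩) (Or.inl ⟨by decide, h25⟩) (Or.inl ⟨by decide, h34⟩) (Or.inl ⟨by decide, h35⟩) (Or.inl ⟨by decide, h45⟩))⟩

lemma injA : Function.Injective fun a => ptz (PA a) :=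
  ptz_inj.comp (by decide : Function.Injective PA)

lemma cardA : Nat.card {F : Face (Kpos (Finset.univ.map ⟨fun a => ptz (PA a), injA⟩)) // Coat F}
    = 24 := by
  refine general _ (fun i => ptz (QA i)) injA ?_ (fun z hz a b c _ h => covA z hz a b c h) ?_ ?_
  · simp only [dt_ptz, ne_eq, Int.cast_eq_zero]
    decide +kernel
  · simp only [dt_ptz, ne_eq, Int.cast_eq_zero, inT_ptz]
    decide +kernel
  · simp only [dt_ptz, ne_eq, Int.cast_eq_zero, inT_ptz]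
    decide +kernel

def PB : Fin 6 → ℤ × ℤ := ![(0, 0), (12, 0), (24, 12), (24, 30), (12, 24), (0, 12)]

def QB : Fin 25 → ℤ × ℤ := ![(1, 1), (1, 3), (2, 3), (2, 11), (2, 13), (3, 1), (5, 8), (5, 16), (6, 7), (7, 13), (9, 4), (11, 13), (11, 21), (13, 2), (13, 3), (13, 7), (13, 13), (13, 17), (13, 22), (13, 24), (15, 22), (16, 9), (17, 20), (18, 13), (20, 17)]

lemma covB (z : ℂ) (hz : ∀ a b, a ≠ b → dt (ptz (PB a)) (ptz (PB b)) z ≠ 0) (a b c : Fin 6)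
    (h : InT (ptz (PB a)) (ptz (PB b)) (ptz (PB c)) z) :
    ∃ i, z ∈ Cell (fun a => ptz (PB a)) (ptz (QB i)) := by
  have side : ∀ p q : Fin 6, p ≠ q → (∀ r, 0 ≤ dz (PB p) (PB q) (PB r)) →
      0 < dt (ptz (PB p)) (ptz (PB q)) z := fun p q hpq hr =>
    lt_of_le_of_ne (inT_side h (by rw [dt_ptz]; exact_mod_cast hr a)
      (by rw [dt_ptz]; exact_mod_cast hr b) (by rw [dt_ptz]; exact_mod_cast hr c)) (hz p q hpq).symm
  have h01 := side 0 1 (by decide) (by decide)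
  have h12 := side 1 2 (by decide) (by decide)
  have h23 := side 2 3 (by decide) (by decide)
  have h34 := side 3 4 (by decide) (by decide)
  have h45 := side 4 5 (by decide) (by decide)
  have h05 : dt (ptz (PB 0)) (ptz (PB 5)) z < 0 := by
    have := side 5 0 (by decide) (by decide)
    rw [dt_swap]; linarith
  have e01 : dt (ptz (PB 0)) (ptz (PB 1)) z = (0) * z.re + (12) * z.im + (0) := by
    have e1 : PB 0 = (0, 0) := rfl
    have e2 : PB 1 = (12, 0) := rfl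
    rw [e1, e2]; simp only [dt, ptz]; push_cast; ring
  have e02 : dt (ptz (PB 0)) (ptz (PB 2)) z = (-12) * z.re + (24) * z.im + (0) := by
    have e1 : PB 0 = (0, 0) := rfl
    have e2 : PB 2 = (24, 12) := rfl
    rw [e1, e2]; simp only [dt, ptz]; push_cast; ring
  have e03 : dt (ptz (PB 0)) (ptz (PB 3)) z = (-30) * z.re + (24) * z.im + (0) := by
    have e1 : PB 0 = (0, 0) := rfl
    have e2 : PB 3 = (24, 30) := rfl
    rw [e1, e2]; simp only [dt, ptz]; push_cast; ring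
  have e04 : dt (ptz (PB 0)) (ptz (PB 4)) z = (-24) * z.re + (12) * z.im + (0) := by
    have e1 : PB 0 = (0, 0) := rfl
    have e2 : PB 4 = (12, 24) := rfl
    rw [e1, e2]; simp only [dt, ptz]; push_cast; ring
  have e05 : dt (ptz (PB 0)) (ptz (PB 5)) z = (-12) * z.re + (0) * z.im + (0) := by
    have e1 : PB 0 = (0, 0) := rfl
    have e2 : PB 5 = (0, 12) := rfl
    rw [e1, e2]; simp only [dt, ptz]; push_cast; ring
  have e12 : dt (ptz (PB 1)) (ptz (PB 2)) z = (-12) * z.re + (12) * z.im + (144) := by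
    have e1 : PB 1 = (12, 0) := rfl
    have e2 : PB 2 = (24, 12) := rfl
    rw [e1, e2]; simp only [dt, ptz]; push_cast; ring
  have e13 : dt (ptz (PB 1)) (ptz (PB 3)) z = (-30) * z.re + (12) * z.im + (360) := by
    have e1 : PB 1 = (12, 0) := rfl
    have e2 : PB 3 = (24, 30) := rfl
    rw [e1, e2]; simp only [dt, ptz]; push_cast; ring
  have e14 : dt (ptz (PB 1)) (ptz (PB 4)) z = (-24) * z.re + (0) * z.im + (288) := by
    have e1 : PB 1 = (12, 0) := rfl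
    have e2 : PB 4 = (12, 24) := rfl
    rw [e1, e2]; simp only [dt, ptz]; push_cast; ring
  have e15 : dt (ptz (PB 1)) (ptz (PB 5)) z = (-12) * z.re + (-12) * z.im + (144) := by
    have e1 : PB 1 = (12, 0) := rfl
    have e2 : PB 5 = (0, 12) := rfl
    rw [e1, e2]; simp only [dt, ptz]; push_cast; ring
  have e23 : dt (ptz (PB 2)) (ptz (PB 3)) z = (-18) * z.re + (0) * z.im + (432) := by
    have e1 : PB 2 = (24, 12) := rfl
    have e2 : PB 3 = (24, 30) := rfl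
    rw [e1, e2]; simp only [dt, ptz]; push_cast; ring
  have e24 : dt (ptz (PB 2)) (ptz (PB 4)) z = (-12) * z.re + (-12) * z.im + (432) := by
    have e1 : PB 2 = (24, 12) := rfl
    have e2 : PB 4 = (12, 24) := rfl
    rw [e1, e2]; simp only [dt, ptz]; push_cast; ring
  have e25 : dt (ptz (PB 2)) (ptz (PB 5)) z = (0) * z.re + (-24) * z.im + (288) := by
    have e1 : PB 2 = (24, 12) := rfl
    have e2 : PB 5 = (0, 12) := rfl
    rw [e1, e2]; simp only [dt, ptz]; push_cast; ring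
  have e34 : dt (ptz (PB 3)) (ptz (PB 4)) z = (6) * z.re + (-12) * z.im + (216) := by
    have e1 : PB 3 = (24, 30) := rfl
    have e2 : PB 4 = (12, 24) := rfl
    rw [e1, e2]; simp only [dt, ptz]; push_cast; ring
  have e35 : dt (ptz (PB 3)) (ptz (PB 5)) z = (18) * z.re + (-24) * z.im + (288) := by
    have e1 : PB 3 = (24, 30) := rfl
    have e2 : PB 5 = (0, 12) := rfl
    rw [e1, e2]; simp only [dt, ptz]; push_cast; ring
  have e45 : dt (ptz (PB 4)) (ptz (PB 5)) z = (12) * z.re + (-12) * z.im + (144) := by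
    have e1 : PB 4 = (12, 24) := rfl
    have e2 : PB 5 = (0, 12) := rfl
    rw [e1, e2]; simp only [dt, ptz]; push_cast; ring
  clear side h
  rcases lt_or_gt_of_ne (hz 0 3 (by decide)) with h03 | h03
  · skip
    have h04 : dt (ptz (PB 0)) (ptz (PB 4)) z < 0 := lt_of_le_of_ne (by linarith) (hz 0 4 (by decide))
    have h35 : 0 < dt (ptz (PB 3)) (ptz (PB 5)) z := lt_of_le_of_ne (by linarith) (hz 3 5 (by decide)).symm
    rcases lt_or_gt_of_ne (hz 1 4 (by decide)) with h14 | h14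
    · skip
      have h15 : dt (ptz (PB 1)) (ptz (PB 5)) z < 0 := lt_of_le_of_ne (by linarith) (hz 1 5 (by decide))
      rcases lt_or_gt_of_ne (hz 1 3 (by decide)) with h13 | h13
      · skip
        rcases lt_or_gt_of_ne (hz 2 5 (by decide)) with h25 | h25
        · skip
          have h02 : 0 < dt (ptz (PB 0)) (ptz (PB 2)) z := lt_of_le_of_ne (by linarith) (hz 0 2 (by decide)).symm
          rcases lt_or_gt_of_ne (hz 2 4 (by decide)) with h24 | h24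
          · skip
            exact ⟨24, mem_cell _ _ _ (all15 (Or.inl ⟨by decide, h01⟩) (Or.inl ⟨by decide, h02⟩) (Or.inr ⟨by decide, h03⟩) (Or.inr ⟨by decide, h04⟩) (Or.inr ⟨by decide, h05⟩) (Or.inl ⟨by decide, h12⟩) (Or.inr ⟨by decide, h13⟩) (Or.inr ⟨by decide, h14⟩) (Or.inr ⟨by decide, h15⟩) (Or.inl ⟨by decide, h23⟩) (Or.inr ⟨by decide, h24⟩) (Or.inr ⟨by decide, h25⟩) (Or.inl ⟨by decide, h34⟩) (Or.inl ⟨by decide, h35⟩) (Or.inl ⟨by decide, h45⟩))⟩
          · skip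
            exact ⟨23, mem_cell _ _ _ (all15 (Or.inl ⟨by decide, h01⟩) (Or.inl ⟨by decide, h02⟩) (Or.inr ⟨by decide, h03⟩) (Or.inr ⟨by decide, h04⟩) (Or.inr ⟨by decide, h05⟩) (Or.inl ⟨by decide, h12⟩) (Or.inr ⟨by decide, h13⟩) (Or.inr ⟨by decide, h14⟩) (Or.inr ⟨by decide, h15⟩) (Or.inl ⟨by decide, h23⟩) (Or.inl ⟨by decide, h24⟩) (Or.inr ⟨by decide, h25⟩) (Or.inl ⟨by decide, h34⟩) (Or.inl ⟨by decide, h35⟩) (Or.inl ⟨by decide, h45⟩))⟩
        · skip
          have h24 : 0 < dt (ptz (PB 2)) (ptz (PB 4)) z := lt_of_le_of_ne (by linarith) (hz 2 4 (by decide)).symm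
          rcases lt_or_gt_of_ne (hz 0 2 (by decide)) with h02 | h02
          · skip
            exact ⟨13, mem_cell _ _ _ (all15 (Or.inl ⟨by decide, h01⟩) (Or.inr ⟨by decide, h02⟩) (Or.inr ⟨by decide, h03⟩) (Or.inr ⟨by decide, h04⟩) (Or.inr ⟨by decide, h05⟩) (Or.inl ⟨by decide, h12⟩) (Or.inr ⟨by decide, h13⟩) (Or.inr ⟨by decide, h14⟩) (Or.inr ⟨by decide, h15⟩) (Or.inl ⟨by decide, h23⟩) (Or.inl ⟨by decide, h24⟩) (Or.inl ⟨by decide, h25⟩) (Or.inl ⟨by decide, h34⟩) (Or.inl ⟨by decide, h35⟩) (Or.inl ⟨by decide, h45⟩))⟩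
          · skip
            exact ⟨21, mem_cell _ _ _ (all15 (Or.inl ⟨by decide, h01⟩) (Or.inl ⟨by decide, h02⟩) (Or.inr ⟨by decide, h03⟩) (Or.inr ⟨by decide, h04⟩) (Or.inr ⟨by decide, h05⟩) (Or.inl ⟨by decide, h12⟩) (Or.inr ⟨by decide, h13⟩) (Or.inr ⟨by decide, h14⟩) (Or.inr ⟨by decide, h15⟩) (Or.inl ⟨by decide, h23⟩) (Or.inl ⟨by decide, h24⟩) (Or.inl ⟨by decide, h25⟩) (Or.inl ⟨by decide, h34⟩) (Or.inl ⟨by decide, h35⟩) (Or.inl ⟨by decide, h45⟩))⟩
      · skip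
        rcases lt_or_gt_of_ne (hz 2 5 (by decide)) with h25 | h25
        · skip
          have h02 : 0 < dt (ptz (PB 0)) (ptz (PB 2)) z := lt_of_le_of_ne (by linarith) (hz 0 2 (by decide)).symm
          rcases lt_or_gt_of_ne (hz 2 4 (by decide)) with h24 | h24
          · skip
            exact ⟨22, mem_cell _ _ _ (all15 (Or.inl ⟨by decide, h01⟩) (Or.inl ⟨by decide, h02⟩) (Or.inr ⟨by decide, h03⟩) (Or.inr ⟨by decide, h04⟩) (Or.inr ⟨by decide, h05⟩) (Or.inl ⟨by decide, h12⟩) (Or.inl ⟨by decide, h13⟩) (Or.inr ⟨by decide, h14⟩) (Or.inr ⟨by decide, h15⟩) (Or.inl ⟨by decide, h23⟩) (Or.inr ⟨by decide, h24⟩) (Or.inr ⟨by decide, h25⟩) (Or.inl ⟨by decide, h34⟩) (Or.inl ⟨by decide, h35⟩) (Or.inl ⟨by decide, h45⟩))⟩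
          · skip
            exact ⟨16, mem_cell _ _ _ (all15 (Or.inl ⟨by decide, h01⟩) (Or.inl ⟨by decide, h02⟩) (Or.inr ⟨by decide, h03⟩) (Or.inr ⟨by decide, h04⟩) (Or.inr ⟨by decide, h05⟩) (Or.inl ⟨by decide, h12⟩) (Or.inl ⟨by decide, h13⟩) (Or.inr ⟨by decide, h14⟩) (Or.inr ⟨by decide, h15⟩) (Or.inl ⟨by decide, h23⟩) (Or.inl ⟨by decide, h24⟩) (Or.inr ⟨by decide, h25⟩) (Or.inl ⟨by decide, h34⟩) (Or.inl ⟨by decide, h35⟩) (Or.inl ⟨by decide, h45⟩))⟩
        · skip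
          have h24 : 0 < dt (ptz (PB 2)) (ptz (PB 4)) z := lt_of_le_of_ne (by linarith) (hz 2 4 (by decide)).symm
          rcases lt_or_gt_of_ne (hz 0 2 (by decide)) with h02 | h02
          · skip
            exact ⟨14, mem_cell _ _ _ (all15 (Or.inl ⟨by decide, h01⟩) (Or.inr ⟨by decide, h02⟩) (Or.inr ⟨by decide, h03⟩) (Or.inr ⟨by decide, h04⟩) (Or.inr ⟨by decide, h05⟩) (Or.inl ⟨by decide, h12⟩) (Or.inl ⟨by decide, h13⟩) (Or.inr ⟨by decide, h14⟩) (Or.inr ⟨by decide, h15⟩) (Or.inl ⟨by decide, h23⟩) (Or.inl ⟨by decide, h24⟩) (Or.inl ⟨by decide, h25⟩) (Or.inl ⟨by decide, h34⟩) (Or.inl ⟨by decide, h35⟩) (Or.inl ⟨by decide, h45⟩))⟩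
          · skip
            exact ⟨15, mem_cell _ _ _ (all15 (Or.inl ⟨by decide, h01⟩) (Or.inl ⟨by decide, h02⟩) (Or.inr ⟨by decide, h03⟩) (Or.inr ⟨by decide, h04⟩) (Or.inr ⟨by decide, h05⟩) (Or.inl ⟨by decide, h12⟩) (Or.inl ⟨by decide, h13⟩) (Or.inr ⟨by decide, h14⟩) (Or.inr ⟨by decide, h15⟩) (Or.inl ⟨by decide, h23⟩) (Or.inl ⟨by decide, h24⟩) (Or.inl ⟨by decide, h25⟩) (Or.inl ⟨by decide, h34⟩) (Or.inl ⟨by decide, h35⟩) (Or.inl ⟨by decide, h45⟩))⟩
    · skip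
      have h13 : 0 < dt (ptz (PB 1)) (ptz (PB 3)) z := lt_of_le_of_ne (by linarith) (hz 1 3 (by decide)).symm
      have h24 : 0 < dt (ptz (PB 2)) (ptz (PB 4)) z := lt_of_le_of_ne (by linarith) (hz 2 4 (by decide)).symm
      rcases lt_or_gt_of_ne (hz 0 2 (by decide)) with h02 | h02
      · skip
        have h25 : 0 < dt (ptz (PB 2)) (ptz (PB 5)) z := lt_of_le_of_ne (by linarith) (hz 2 5 (by decide)).symm
        rcases lt_or_gt_of_ne (hz 1 5 (by decide)) with h15 | h15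
        · skip
          exact ⟨10, mem_cell _ _ _ (all15 (Or.inl ⟨by decide, h01⟩) (Or.inr ⟨by decide, h02⟩) (Or.inr ⟨by decide, h03⟩) (Or.inr ⟨by decide, h04⟩) (Or.inr ⟨by decide, h05⟩) (Or.inl ⟨by decide, h12⟩) (Or.inl ⟨by decide, h13⟩) (Or.inl ⟨by decide, h14⟩) (Or.inr ⟨by decide, h15⟩) (Or.inl ⟨by decide, h23⟩) (Or.inl ⟨by decide, h24⟩) (Or.inl ⟨by decide, h25⟩) (Or.inl ⟨by decide, h34⟩) (Or.inl ⟨by decide, h35⟩) (Or.inl ⟨by decide, h45⟩))⟩
        · skip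
          exact ⟨5, mem_cell _ _ _ (all15 (Or.inl ⟨by decide, h01⟩) (Or.inr ⟨by decide, h02⟩) (Or.inr ⟨by decide, h03⟩) (Or.inr ⟨by decide, h04⟩) (Or.inr ⟨by decide, h05⟩) (Or.inl ⟨by decide, h12⟩) (Or.inl ⟨by decide, h13⟩) (Or.inl ⟨by decide, h14⟩) (Or.inl ⟨by decide, h15⟩) (Or.inl ⟨by decide, h23⟩) (Or.inl ⟨by decide, h24⟩) (Or.inl ⟨by decide, h25⟩) (Or.inl ⟨by decide, h34⟩) (Or.inl ⟨by decide, h35⟩) (Or.inl ⟨by decide, h45⟩))⟩
      · skip
        rcases lt_or_gt_of_ne (hz 1 5 (by decide)) with h15 | h15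
        · skip
          rcases lt_or_gt_of_ne (hz 2 5 (by decide)) with h25 | h25
          · skip
            exact ⟨11, mem_cell _ _ _ (all15 (Or.inl ⟨by decide, h01⟩) (Or.inl ⟨by decide, h02⟩) (Or.inr ⟨by decide, h03⟩) (Or.inr ⟨by decide, h04⟩) (Or.inr ⟨by decide, h05⟩) (Or.inl ⟨by decide, h12⟩) (Or.inl ⟨by decide, h13⟩) (Or.inl ⟨by decide, h14⟩) (Or.inr ⟨by decide, h15⟩) (Or.inl ⟨by decide, h23⟩) (Or.inl ⟨by decide, h24⟩) (Or.inr ⟨by decide, h25⟩) (Or.inl ⟨by decide, h34⟩) (Or.inl ⟨by decide, h35⟩) (Or.inl ⟨by decide, h45⟩))⟩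
          · skip
            exact ⟨8, mem_cell _ _ _ (all15 (Or.inl ⟨by decide, h01⟩) (Or.inl ⟨by decide, h02⟩) (Or.inr ⟨by decide, h03⟩) (Or.inr ⟨by decide, h04⟩) (Or.inr ⟨by decide, h05⟩) (Or.inl ⟨by decide, h12⟩) (Or.inl ⟨by decide, h13⟩) (Or.inl ⟨by decide, h14⟩) (Or.inr ⟨by decide, h15⟩) (Or.inl ⟨by decide, h23⟩) (Or.inl ⟨by decide, h24⟩) (Or.inl ⟨by decide, h25⟩) (Or.inl ⟨by decide, h34⟩) (Or.inl ⟨by decide, h35⟩) (Or.inl ⟨by decide, h45⟩))⟩
        · skip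
          have h25 : 0 < dt (ptz (PB 2)) (ptz (PB 5)) z := lt_of_le_of_ne (by linarith) (hz 2 5 (by decide)).symm
          exact ⟨0, mem_cell _ _ _ (all15 (Or.inl ⟨by decide, h01⟩) (Or.inl ⟨by decide, h02⟩) (Or.inr ⟨by decide, h03⟩) (Or.inr ⟨by decide, h04⟩) (Or.inr ⟨by decide, h05⟩) (Or.inl ⟨by decide, h12⟩) (Or.inl ⟨by decide, h13⟩) (Or.inl ⟨by decide, h14⟩) (Or.inl ⟨by decide, h15⟩) (Or.inl ⟨by decide, h23⟩) (Or.inl ⟨by decide, h24⟩) (Or.inl ⟨by decide, h25⟩) (Or.inl ⟨by decide, h34⟩) (Or.inl ⟨by decide, h35⟩) (Or.inl ⟨by decide, h45⟩))⟩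
  · skip
    have h02 : 0 < dt (ptz (PB 0)) (ptz (PB 2)) z := lt_of_le_of_ne (by linarith) (hz 0 2 (by decide)).symm
    have h13 : 0 < dt (ptz (PB 1)) (ptz (PB 3)) z := lt_of_le_of_ne (by linarith) (hz 1 3 (by decide)).symm
    rcases lt_or_gt_of_ne (hz 0 4 (by decide)) with h04 | h04
    · skip
      rcases lt_or_gt_of_ne (hz 1 4 (by decide)) with h14 | h14
      · skip
        have h15 : dt (ptz (PB 1)) (ptz (PB 5)) z < 0 := lt_of_le_of_ne (by linarith) (hz 1 5 (by decide))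
        have h25 : dt (ptz (PB 2)) (ptz (PB 5)) z < 0 := lt_of_le_of_ne (by linarith) (hz 2 5 (by decide))
        rcases lt_or_gt_of_ne (hz 2 4 (by decide)) with h24 | h24
        · skip
          rcases lt_or_gt_of_ne (hz 3 5 (by decide)) with h35 | h35
          · skip
            exact ⟨19, mem_cell _ _ _ (all15 (Or.inl ⟨by decide, h01⟩) (Or.inl ⟨by decide, h02⟩) (Or.inl ⟨by decide, h03⟩) (Or.inr ⟨by decide, h04⟩) (Or.inr ⟨by decide, h05⟩) (Or.inl ⟨by decide, h12⟩) (Or.inl ⟨by decide, h13⟩) (Or.inr ⟨by decide, h14⟩) (Or.inr ⟨by decide, h15⟩) (Or.inl ⟨by decide, h23⟩) (Or.inr ⟨by decide, h24⟩) (Or.inr ⟨by decide, h25⟩) (Or.inl ⟨by decide, h34⟩) (Or.inr ⟨by decide, h35⟩) (Or.inl ⟨by decide, h45⟩))⟩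
          · skip
            exact ⟨20, mem_cell _ _ _ (all15 (Or.inl ⟨by decide, h01⟩) (Or.inl ⟨by decide, h02⟩) (Or.inl ⟨by decide, h03⟩) (Or.inr ⟨by decide, h04⟩) (Or.inr ⟨by decide, h05⟩) (Or.inl ⟨by decide, h12⟩) (Or.inl ⟨by decide, h13⟩) (Or.inr ⟨by decide, h14⟩) (Or.inr ⟨by decide, h15⟩) (Or.inl ⟨by decide, h23⟩) (Or.inr ⟨by decide, h24⟩) (Or.inr ⟨by decide, h25⟩) (Or.inl ⟨by decide, h34⟩) (Or.inl ⟨by decide, h35⟩) (Or.inl ⟨by decide, h45⟩))⟩
        · skip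
          rcases lt_or_gt_of_ne (hz 3 5 (by decide)) with h35 | h35
          · skip
            exact ⟨18, mem_cell _ _ _ (all15 (Or.inl ⟨by decide, h01⟩) (Or.inl ⟨by decide, h02⟩) (Or.inl ⟨by decide, h03⟩) (Or.inr ⟨by decide, h04⟩) (Or.inr ⟨by decide, h05⟩) (Or.inl ⟨by decide, h12⟩) (Or.inl ⟨by decide, h13⟩) (Or.inr ⟨by decide, h14⟩) (Or.inr ⟨by decide, h15⟩) (Or.inl ⟨by decide, h23⟩) (Or.inl ⟨by decide, h24⟩) (Or.inr ⟨by decide, h25⟩) (Or.inl ⟨by decide, h34⟩) (Or.inr ⟨by decide, h35⟩) (Or.inl ⟨by decide, h45⟩))⟩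
          · skip
            exact ⟨17, mem_cell _ _ _ (all15 (Or.inl ⟨by decide, h01⟩) (Or.inl ⟨by decide, h02⟩) (Or.inl ⟨by decide, h03⟩) (Or.inr ⟨by decide, h04⟩) (Or.inr ⟨by decide, h05⟩) (Or.inl ⟨by decide, h12⟩) (Or.inl ⟨by decide, h13⟩) (Or.inr ⟨by decide, h14⟩) (Or.inr ⟨by decide, h15⟩) (Or.inl ⟨by decide, h23⟩) (Or.inl ⟨by decide, h24⟩) (Or.inr ⟨by decide, h25⟩) (Or.inl ⟨by decide, h34⟩) (Or.inl ⟨by decide, h35⟩) (Or.inl ⟨by decide, h45⟩))⟩
      · skip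
        have h24 : 0 < dt (ptz (PB 2)) (ptz (PB 4)) z := lt_of_le_of_ne (by linarith) (hz 2 4 (by decide)).symm
        rcases lt_or_gt_of_ne (hz 2 5 (by decide)) with h25 | h25
        · skip
          have h15 : dt (ptz (PB 1)) (ptz (PB 5)) z < 0 := lt_of_le_of_ne (by linarith) (hz 1 5 (by decide))
          rcases lt_or_gt_of_ne (hz 3 5 (by decide)) with h35 | h35
          · skip
            exact ⟨12, mem_cell _ _ _ (all15 (Or.inl ⟨by decide, h01⟩) (Or.inl ⟨by decide, h02⟩) (Or.inl ⟨by decide, h03⟩) (Or.inr ⟨by decide, h04⟩) (Or.inr ⟨by decide, h05⟩) (Or.inl ⟨by decide, h12⟩) (Or.inl ⟨by decide, h13⟩) (Or.inl ⟨by decide, h14⟩) (Or.inr ⟨by decide, h15⟩) (Or.inl ⟨by decide, h23⟩) (Or.inl ⟨by decide, h24⟩) (Or.inr ⟨by decide, h25⟩) (Or.inl ⟨by decide, h34⟩) (Or.inr ⟨by decide, h35⟩) (Or.inl ⟨by decide, h45⟩))⟩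
          · skip
            exact ⟨9, mem_cell _ _ _ (all15 (Or.inl ⟨by decide, h01⟩) (Or.inl ⟨by decide, h02⟩) (Or.inl ⟨by decide, h03⟩) (Or.inr ⟨by decide, h04⟩) (Or.inr ⟨by decide, h05⟩) (Or.inl ⟨by decide, h12⟩) (Or.inl ⟨by decide, h13⟩) (Or.inl ⟨by decide, h14⟩) (Or.inr ⟨by decide, h15⟩) (Or.inl ⟨by decide, h23⟩) (Or.inl ⟨by decide, h24⟩) (Or.inr ⟨by decide, h25⟩) (Or.inl ⟨by decide, h34⟩) (Or.inl ⟨by decide, h35⟩) (Or.inl ⟨by decide, h45⟩))⟩
        · skip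
          have h35 : 0 < dt (ptz (PB 3)) (ptz (PB 5)) z := lt_of_le_of_ne (by linarith) (hz 3 5 (by decide)).symm
          rcases lt_or_gt_of_ne (hz 1 5 (by decide)) with h15 | h15
          · skip
            exact ⟨6, mem_cell _ _ _ (all15 (Or.inl ⟨by decide, h01⟩) (Or.inl ⟨by decide, h02⟩) (Or.inl ⟨by decide, h03⟩) (Or.inr ⟨by decide, h04⟩) (Or.inr ⟨by decide, h05⟩) (Or.inl ⟨by decide, h12⟩) (Or.inl ⟨by decide, h13⟩) (Or.inl ⟨by decide, h14⟩) (Or.inr ⟨by decide, h15⟩) (Or.inl ⟨by decide, h23⟩) (Or.inl ⟨by decide, h24⟩) (Or.inl ⟨by decide, h25⟩) (Or.inl ⟨by decide, h34⟩) (Or.inl ⟨by decide, h35⟩) (Or.inl ⟨by decide, h45⟩))⟩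
          · skip
            exact ⟨2, mem_cell _ _ _ (all15 (Or.inl ⟨by decide, h01⟩) (Or.inl ⟨by decide, h02⟩) (Or.inl ⟨by decide, h03⟩) (Or.inr ⟨by decide, h04⟩) (Or.inr ⟨by decide, h05⟩) (Or.inl ⟨by decide, h12⟩) (Or.inl ⟨by decide, h13⟩) (Or.inl ⟨by decide, h14⟩) (Or.inl ⟨by decide, h15⟩) (Or.inl ⟨by decide, h23⟩) (Or.inl ⟨by decide, h24⟩) (Or.inl ⟨by decide, h25⟩) (Or.inl ⟨by decide, h34⟩) (Or.inl ⟨by decide, h35⟩) (Or.inl ⟨by decide, h45⟩))⟩
    · skip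
      have h14 : 0 < dt (ptz (PB 1)) (ptz (PB 4)) z := lt_of_le_of_ne (by linarith) (hz 1 4 (by decide)).symm
      have h24 : 0 < dt (ptz (PB 2)) (ptz (PB 4)) z := lt_of_le_of_ne (by linarith) (hz 2 4 (by decide)).symm
      rcases lt_or_gt_of_ne (hz 2 5 (by decide)) with h25 | h25
      · skip
        have h15 : dt (ptz (PB 1)) (ptz (PB 5)) z < 0 := lt_of_le_of_ne (by linarith) (hz 1 5 (by decide))
        rcases lt_or_gt_of_ne (hz 3 5 (by decide)) with h35 | h35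
        · skip
          exact ⟨7, mem_cell _ _ _ (all15 (Or.inl ⟨by decide, h01⟩) (Or.inl ⟨by decide, h02⟩) (Or.inl ⟨by decide, h03⟩) (Or.inl ⟨by decide, h04⟩) (Or.inr ⟨by decide, h05⟩) (Or.inl ⟨by decide, h12⟩) (Or.inl ⟨by decide, h13⟩) (Or.inl ⟨by decide, h14⟩) (Or.inr ⟨by decide, h15⟩) (Or.inl ⟨by decide, h23⟩) (Or.inl ⟨by decide, h24⟩) (Or.inr ⟨by decide, h25⟩) (Or.inl ⟨by decide, h34⟩) (Or.inr ⟨by decide, h35⟩) (Or.inl ⟨by decide, h45⟩))⟩
        · skip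
          exact ⟨4, mem_cell _ _ _ (all15 (Or.inl ⟨by decide, h01⟩) (Or.inl ⟨by decide, h02⟩) (Or.inl ⟨by decide, h03⟩) (Or.inl ⟨by decide, h04⟩) (Or.inr ⟨by decide, h05⟩) (Or.inl ⟨by decide, h12⟩) (Or.inl ⟨by decide, h13⟩) (Or.inl ⟨by decide, h14⟩) (Or.inr ⟨by decide, h15⟩) (Or.inl ⟨by decide, h23⟩) (Or.inl ⟨by decide, h24⟩) (Or.inr ⟨by decide, h25⟩) (Or.inl ⟨by decide, h34⟩) (Or.inl ⟨by decide, h35⟩) (Or.inl ⟨by decide, h45⟩))⟩
      · skip
        have h35 : 0 < dt (ptz (PB 3)) (ptz (PB 5)) z := lt_of_le_of_ne (by linarith) (hz 3 5 (by decide)).symm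
        rcases lt_or_gt_of_ne (hz 1 5 (by decide)) with h15 | h15
        · skip
          exact ⟨3, mem_cell _ _ _ (all15 (Or.inl ⟨by decide, h01⟩) (Or.inl ⟨by decide, h02⟩) (Or.inl ⟨by decide, h03⟩) (Or.inl ⟨by decide, h04⟩) (Or.inr ⟨by decide, h05⟩) (Or.inl ⟨by decide, h12⟩) (Or.inl ⟨by decide, h13⟩) (Or.inl ⟨by decide, h14⟩) (Or.inr ⟨by decide, h15⟩) (Or.inl ⟨by decide, h23⟩) (Or.inl ⟨by decide, h24⟩) (Or.inl ⟨by decide, h25⟩) (Or.inl ⟨by decide, h34⟩) (Or.inl ⟨by decide, h35⟩) (Or.inl ⟨by decide, h45⟩))⟩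
        · skip
          exact ⟨1, mem_cell _ _ _ (all15 (Or.inl ⟨by decide, h01⟩) (Or.inl ⟨by decide, h02⟩) (Or.inl ⟨by decide, h03⟩) (Or.inl ⟨by decide, h04⟩) (Or.inr ⟨by decide, h05⟩) (Or.inl ⟨by decide, h12⟩) (Or.inl ⟨by decide, h13⟩) (Or.inl ⟨by decide, h14⟩) (Or.inl ⟨by decide, h15⟩) (Or.inl ⟨by decide, h23⟩) (Or.inl ⟨by decide, h24⟩) (Or.inl ⟨by decide, h25⟩) (Or.inl ⟨by decide, h34⟩) (Or.inl ⟨by decide, h35⟩) (Or.inl ⟨by decide, h45⟩))⟩

lemma injB : Function.Injective fun a => ptz (PB a) :=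
  ptz_inj.comp (by decide : Function.Injective PB)

lemma cardB : Nat.card {F : Face (Kpos (Finset.univ.map ⟨fun a => ptz (PB a), injB⟩)) // Coat F}
    = 25 := by
  refine general _ (fun i => ptz (QB i)) injB ?_ (fun z hz a b c _ h => covB z hz a b c h) ?_ ?_
  · simp only [dt_ptz, ne_eq, Int.cast_eq_zero]
    decide +kernel
  · simp only [dt_ptz, ne_eq, Int.cast_eq_zero, inT_ptz]
    decide +kernel
  · simp only [dt_ptz, ne_eq, Int.cast_eq_zero, inT_ptz]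
    decide +kernel

theorem result : ∃ S S' : Finset ℂ, S.card = 6 ∧ S'.card = 6 ∧
    (∀ a ∈ S, ∀ b ∈ S, ∀ c ∈ S, a ≠ b → b ≠ c → c ≠ a → det3 a b c ≠ 0) ∧
    (∀ a ∈ S', ∀ b ∈ S', ∀ c ∈ S', a ≠ b → b ≠ c → c ≠ a → det3 a b c ≠ 0) ∧
    (∃ φ : S ≃ S', ∀ a b c : S,
      SignType.sign (det3 (φ a) (φ b) (φ c)) = SignType.sign (det3 a b c)) ∧
    IsEmpty (Face (Kpos S) ≃o Face (Kpos S')) := by
  have gp : ∀ (P : Fin 6 → ℤ × ℤ) (hP : Function.Injective fun a => ptz (P a)),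
      (∀ a b c, a ≠ b → b ≠ c → c ≠ a → dz (P a) (P b) (P c) ≠ 0) →
      ∀ a ∈ Finset.univ.map ⟨_, hP⟩, ∀ b ∈ Finset.univ.map ⟨_, hP⟩,
        ∀ c ∈ Finset.univ.map ⟨_, hP⟩, a ≠ b → b ≠ c → c ≠ a → det3 a b c ≠ 0 := by
    intro P hP h a ha b hb c hc h1 h2 h3
    simp only [Finset.mem_map, Finset.mem_univ, true_and, Function.Embedding.coeFn_mk] at ha hb hc
    obtain ⟨a, rfl⟩ := ha
    obtain ⟨b, rfl⟩ := hb
    obtain ⟨c, rfl⟩ := hc
    rw [det3_eq, dt_ptz]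
    exact_mod_cast h a b c (fun e => h1 (by rw [e])) (fun e => h2 (by rw [e]))
      (fun e => h3 (by rw [e]))
  have eqv : ∀ (P : Fin 6 → ℤ × ℤ) (hP : Function.Injective fun a => ptz (P a)),
      ∃ e : Fin 6 ≃ (Finset.univ.map ⟨_, hP⟩ : Finset ℂ), ∀ a, (e a : ℂ) = ptz (P a) := by
    intro P hP
    refine ⟨Equiv.ofBijective (fun a => ⟨ptz (P a), by simp⟩) ⟨fun a b h => hP ?_, ?_⟩,
      fun _ => rfl⟩
    · exact congrArg Subtype.val h
    · rintro ⟨x, hx⟩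
      simp only [Finset.mem_map, Finset.mem_univ, true_and, Function.Embedding.coeFn_mk] at hx
      obtain ⟨a, rfl⟩ := hx
      exact ⟨a, rfl⟩
  refine ⟨Finset.univ.map ⟨_, injA⟩, Finset.univ.map ⟨_, injB⟩, by simp, by simp,
    gp PA injA (by decide +kernel), gp PB injB (by decide +kernel), ?_, ⟨fun e => ?_⟩⟩
  · obtain ⟨eA, hA⟩ := eqv PA injA
    obtain ⟨eB, hB⟩ := eqv PB injB
    refine ⟨eA.symm.trans eB, fun a b c => ?_⟩
    obtain ⟨a, rfl⟩ := eA.surjective a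
    obtain ⟨b, rfl⟩ := eA.surjective b
    obtain ⟨c, rfl⟩ := eA.surjective c
    simp only [Equiv.trans_apply, Equiv.symm_apply_apply, hA, hB, det3_eq, dt_ptz, sign_intCast]
    revert a b c
    decide +kernel
  · have := coat_card e
    rw [cardA, cardB] at this
    omega

end Pool.Agent.Results.MP_41af23_an.Q1
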